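import Pool.Agent.Helper77.BN.Milutin

set_option autoImplicit false
set_option linter.unusedSectionVars false

namespace Pool.Agent.Helper77.BN.Mil

open Filter Topology

section
variable (K : Type) [MetricSpace K] [CompactSpace K] [Nonempty K]

/-- a finite partition of unity with small supports -/
lemma exists_pou (ε : ℝ) (hε : 0 < ε) : ∃ (m : ℕ) (c : Fin (m + 1) → K) (p : Fin (m + 1) → C(K, ℝ)),
    (∀ i k, 0 ≤ p i k) ∧ (∀ k, ∑ i, p i k = 1) ∧ ∀ i k, 0 < p i k → dist k (c i) ≤ ε := by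
  obtain ⟨t, -, htf, htc⟩ := finite_cover_balls_of_compact (isCompact_univ (X := K)) hε
  have htne : t.Nonempty := by
    obtain ⟨k⟩ := ‹Nonempty K›
    have := htc (Set.mem_univ k)
    simp only [Set.mem_iUnion] at this
    obtain ⟨x, hx, -⟩ := this
    exact ⟨x, hx⟩
  have hfin : Finite t := htf
  have hne : Nonempty t := htne.to_subtype
  obtain ⟨n, ⟨e⟩⟩ := Finite.exists_equiv_fin t
  obtain ⟨m, rfl⟩ : ∃ m, n = m + 1 := by
    refine Nat.exists_eq_succ_of_ne_zero (fun h => ?_)
    subst h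
    exact Fin.elim0 (e hne.some)
  let c : Fin (m + 1) → K := fun i => (e.symm i : K)
  let h : Fin (m + 1) → K → ℝ := fun i k => max 0 (ε - dist k (c i))
  have hc : ∀ i, Continuous (h i) := fun i => by fun_prop
  have h0 : ∀ i k, 0 ≤ h i k := fun i k => le_max_left _ _
  have hpos : ∀ k, 0 < ∑ i, h i k := by
    intro k
    have := htc (Set.mem_univ k)
    simp only [Set.mem_iUnion] at this
    obtain ⟨x, hx, hk⟩ := this
    refine Finset.sum_pos' (fun i _ => h0 i k) ⟨e ⟨x, hx⟩, Finset.mem_univ _, ?_⟩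
    refine lt_max_of_lt_right ?_
    simp only [c, Equiv.symm_apply_apply]
    rw [Metric.mem_ball] at hk
    linarith
  refine ⟨m, c, fun i => ⟨fun k => h i k / ∑ j, h j k, ?_⟩, fun i k => ?_, fun k => ?_,
    fun i k hk => ?_⟩
  · exact (hc i).div (continuous_finsetSum _ fun j _ => hc j) (fun k => (hpos k).ne')
  · exact div_nonneg (h0 i k) (hpos k).le
  · simp only [ContinuousMap.coe_mk]
    rw [← Finset.sum_div, div_self (hpos k).ne']
  · simp only [ContinuousMap.coe_mk] at hk
    by_contra hd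
    push Not at hd
    have : h i k = 0 := max_eq_left (by linarith)
    rw [this, zero_div] at hk
    exact lt_irrefl _ hk

/-- Every nonempty compact metric space admits a finite-stage averaging scheme. -/
theorem exists_scheme : ∃ (m : ℕ → ℕ) (p : ∀ n, Fin (m n + 1) → C(K, ℝ)) (q : C(SS m, K)),
    (∀ n i k, 0 ≤ p n i k) ∧ (∀ n k, ∑ i, p n i k = 1) ∧
    ∀ s k, (∀ n, 0 < p n (s n) k) → q s = k := by
  have hex := fun n : ℕ => exists_pou K ((1 / 2 : ℝ) ^ n) (by positivity)
  choose m c p h0 h1 h2 using hex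
  have hε : Tendsto (fun n : ℕ => (1 / 2 : ℝ) ^ n) atTop (𝓝 0) :=
    tendsto_pow_atTop_nhds_zero_of_lt_one (by norm_num) (by norm_num)
  let G : Set (K × SS m) := {x | ∀ n, dist x.1 (c n (x.2 n)) ≤ (1 / 2 : ℝ) ^ n}
  have hG : IsClosed G := by
    have : G = ⋂ n, {x : K × SS m | dist x.1 (c n (x.2 n)) ≤ (1 / 2 : ℝ) ^ n} := by
      ext x; simp [G]
    rw [this]
    refine isClosed_iInter fun n => isClosed_le ?_ continuous_const
    have hcn : Continuous (c n) := continuous_of_discreteTopology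
    exact continuous_fst.dist (hcn.comp ((continuous_apply n).comp continuous_snd))
  let Z : Set (SS m) := Prod.snd '' G
  have hZ : IsClosed Z := isClosedMap_snd_of_compactSpace _ hG
  have hgood : ∀ s k, (∀ n, 0 < p n (s n) k) → (k, s) ∈ G := fun s k h n => h2 n _ _ (h n)
  have hZne : Z.Nonempty := by
    obtain ⟨k⟩ := ‹Nonempty K›
    have hpos : ∀ n, ∃ i, 0 < p n i k := by
      intro n
      by_contra hno
      push Not at hno
      have : ∑ i, p n i k ≤ 0 := Finset.sum_nonpos fun i _ => hno i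
      rw [h1 n k] at this
      linarith
    choose w hw using hpos
    exact ⟨w, (k, w), hgood w k hw, rfl⟩
  have hφ : ∀ z : Z, ∃ k, (k, z.1) ∈ G := by
    rintro ⟨s, ⟨k, s'⟩, hk, rfl⟩
    exact ⟨k, hk⟩
  choose φ hφG using hφ
  have huniq : ∀ (n : ℕ) (k k' : K) (s s' : SS m), (k, s) ∈ G → (k', s') ∈ G → s n = s' n →
      dist k k' ≤ (1 / 2 : ℝ) ^ n + (1 / 2 : ℝ) ^ n := by
    intro n k k' s s' h h' hs
    have a := h n
    have b := h' n
    simp only at a b
    rw [← hs, dist_comm] at b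
    exact (dist_triangle k (c n (s n)) k').trans (add_le_add a b)
  have hφc : Continuous φ := by
    rw [Metric.continuous_iff']
    intro z ε hε'
    have h3 : Tendsto (fun n : ℕ => (1 / 2 : ℝ) ^ n + (1 / 2 : ℝ) ^ n) atTop (𝓝 0) := by
      simpa using hε.add hε
    obtain ⟨n, hn⟩ := (h3.eventually (gt_mem_nhds hε')).exists
    have hopen : IsOpen {y : Z | y.1 n = z.1 n} := by
      have : Continuous fun y : Z => y.1 n := (continuous_apply n).comp continuous_subtype_val
      exact (isOpen_discrete {z.1 n}).preimage this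
    filter_upwards [hopen.mem_nhds (show z ∈ {y : Z | y.1 n = z.1 n} from rfl)] with y hy
    exact lt_of_le_of_lt (huniq n _ _ _ _ (hφG y) (hφG z) hy) hn
  obtain ⟨r, hr, -, hrc⟩ := PiNat.exists_retraction_subtype_of_isClosed hZ hZne
  refine ⟨m, p, ⟨fun s => φ (r s), hφc.comp hrc⟩, h0, h1, fun s k h => ?_⟩
  have hs : s ∈ Z := ⟨(k, s), hgood s k h, rfl⟩
  have e : r s = ⟨s, hs⟩ := hr ⟨s, hs⟩
  simp only [ContinuousMap.coe_mk, e]
  have hd : ∀ n : ℕ, dist (φ ⟨s, hs⟩) k ≤ (1 / 2 : ℝ) ^ n + (1 / 2 : ℝ) ^ n := fun n =>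
    huniq n _ _ _ _ (hφG ⟨s, hs⟩) (hgood s k h) rfl
  have h3 : Tendsto (fun n : ℕ => (1 / 2 : ℝ) ^ n + (1 / 2 : ℝ) ^ n) atTop (𝓝 0) := by
    simpa using hε.add hε
  exact dist_le_zero.mp (ge_of_tendsto' h3 hd)

end

/-- A nonempty compact totally disconnected second countable Hausdorff space is a retract of the
Cantor space. -/
theorem exists_retract (S : Type) [TopologicalSpace S] [CompactSpace S] [T2Space S]
    [TotallyDisconnectedSpace S] [SecondCountableTopology S] [Nonempty S] :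
    ∃ (e : C(S, D)) (r : C(D, S)), ∀ x, r (e x) = x := by
  classical
  have hcount : Countable (TopologicalSpace.Clopens S) := by
    rw [TopologicalSpace.Clopens.countable_iff_secondCountable]; infer_instance
  obtain ⟨u, hu⟩ := exists_surjective_nat (TopologicalSpace.Clopens S)
  let e : S → D := fun x n => decide (x ∈ u n)
  have hec : Continuous e := by
    refine continuous_pi fun n => ?_
    rw [continuous_discrete_rng]
    intro b
    cases b with
    | true =>
      have : (fun x => e x n) ⁻¹' {true} = (u n : Set S) := by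
        ext x; simp [e]
      rw [this]; exact (u n).isClopen.isOpen
    | false =>
      have : (fun x => e x n) ⁻¹' {false} = (u n : Set S)ᶜ := by
        ext x; simp [e]
      rw [this]; exact (u n).isClopen.compl.isOpen
  have hinj : Function.Injective e := by
    intro x y hxy
    by_contra hne
    obtain ⟨V, hV, hxV, hyV⟩ := exists_isClopen_of_totally_separated hne
    obtain ⟨n, hn⟩ := hu ⟨V, hV⟩
    have h1 := congrFun hxy n
    simp only [e, hn] at h1
    have h2 : (x ∈ (⟨V, hV⟩ : TopologicalSpace.Clopens S)) = True := eq_true hxV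
    have h3 : (y ∈ (⟨V, hV⟩ : TopologicalSpace.Clopens S)) = False := eq_false hyV
    simp [h2, h3] at h1
  have hemb := hec.isClosedEmbedding hinj
  obtain ⟨r, hr, -, hrc⟩ := PiNat.exists_retraction_subtype_of_isClosed hemb.isClosed_range
    (Set.range_nonempty e)
  let g : S ≃ₜ Set.range e := hemb.isEmbedding.toHomeomorph
  refine ⟨⟨e, hec⟩, ⟨fun y => g.symm (r y), g.symm.continuous.comp hrc⟩, fun x => ?_⟩
  have h1 : r (e x) = ⟨e x, x, rfl⟩ := hr ⟨e x, x, rfl⟩
  simp only [ContinuousMap.coe_mk, h1]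
  exact g.symm_apply_apply x

/-- currying, the other direction -/
lemma Compl.uncurry {X Y : Type} [TopologicalSpace X] [TopologicalSpace Y] [CompactSpace X]
    [CompactSpace Y] [T2Space Y] : Compl C(X × Y, ℝ) C(X, C(Y, ℝ)) := by
  let i : C(X, C(Y, ℝ)) →ₗ[ℝ] C(X × Y, ℝ) :=
    { toFun := fun f => f.uncurry
      map_add' := fun _ _ => by ext p; rfl
      map_smul' := fun _ _ => by ext p; rfl }
  let p : C(X × Y, ℝ) →ₗ[ℝ] C(X, C(Y, ℝ)) :=
    { toFun := fun g => g.curry
      map_add' := fun _ _ => by ext x y; rfl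
      map_smul' := fun _ _ => by ext x y; rfl }
  refine ⟨p.mkContinuous 1 (fun g => ?_), i.mkContinuous 1 (fun f => ?_), fun g => ?_⟩
  · rw [one_mul]; exact norm_curry_le g
  · rw [one_mul]; exact norm_uncurry_le f
  · ext ⟨x, y⟩; rfl

/-- Milutin's lemma, vector valued: `C(K, E)` is complemented in `C(S, E)`. -/
theorem compl_scheme (K : Type) [MetricSpace K] [CompactSpace K]
    {E : Type} [NormedAddCommGroup E] [NormedSpace ℝ E] [CompleteSpace E] {m : ℕ → ℕ}
    (p : ∀ n, Fin (m n + 1) → C(K, ℝ)) (p0 : ∀ n i k, 0 ≤ p n i k)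
    (p1 : ∀ n k, ∑ i, p n i k = 1) (q : C(SS m, K))
    (hq : ∀ s k, (∀ n, 0 < p n (s n) k) → q s = k) : Compl C(K, E) C(SS m, E) := by
  obtain ⟨A, hA⟩ := exists_average (E := E) p p0 p1 q hq
  let i : C(K, E) →ₗ[ℝ] C(SS m, E) :=
    { toFun := fun g => g.comp q
      map_add' := fun _ _ => rfl
      map_smul' := fun _ _ => rfl }
  have hi : ∀ g, ‖i g‖ ≤ 1 * ‖g‖ := fun g => by
    rw [one_mul]
    refine (ContinuousMap.norm_le _ (norm_nonneg g)).mpr (fun s => ?_)
    exact g.norm_coe_le_norm (q s)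
  refine ⟨i.mkContinuous 1 hi, A, fun g => ?_⟩
  rw [LinearMap.mkContinuous_apply]
  exact hA g

section
variable (K : Type) [MetricSpace K] [CompactSpace K] [Nonempty K]

/-- Milutin: `C(βN × βN × K)` is complemented in `C(βN × βN × D)`. -/
theorem compl_K : Compl C(B × B × K, ℝ) CV := by
  obtain ⟨m, p, q, h0, h1, hq⟩ := exists_scheme K
  obtain ⟨e, r, hr⟩ := exists_retract (SS m)
  have s1 : Compl C(B × B × K, ℝ) C(K × (B × B), ℝ) :=
    Compl.of_retract (X := B × B × K) (Y := K × (B × B))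
      ⟨fun x => (x.2.2, (x.1, x.2.1)), by fun_prop⟩ ⟨fun x => (x.2.1, x.2.2, x.1), by fun_prop⟩
      (fun _ => rfl)
  have s2 : Compl C(K × (B × B), ℝ) C(K, C(B × B, ℝ)) := Compl.uncurry
  have s3 : Compl C(K, C(B × B, ℝ)) C(SS m, C(B × B, ℝ)) := compl_scheme K p h0 h1 q hq
  have s4 : Compl C(SS m, C(B × B, ℝ)) C(SS m × (B × B), ℝ) := Compl.curry
  have s5 : Compl C(SS m × (B × B), ℝ) CV :=
    Compl.of_retract (X := SS m × (B × B)) (Y := B × B × D)
      ⟨fun x => (x.2.1, x.2.2, e x.1), by fun_prop⟩ ⟨fun x => (r x.2.2, (x.1, x.2.1)), by fun_prop⟩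
      (fun x => by simp [hr])
  exact s1.trans (s2.trans (s3.trans (s4.trans s5)))

lemma compl_BB_K : Compl C(B × B, ℝ) C(B × B × K, ℝ) := by
  obtain ⟨k⟩ := ‹Nonempty K›
  exact Compl.of_retract (X := B × B) (Y := B × B × K)
      ⟨fun p => (p.1, p.2, k), by fun_prop⟩ ⟨fun p => (p.1, p.2.1), by fun_prop⟩ (fun _ => rfl)

lemma compl_V_BB : Compl CV C(B × B, ℝ) := ⟨compC Gam, PP, PP_comp⟩

/-- `βN × βN` absorbs every nonempty compact metric space. -/
theorem absorbs : Nonempty (C(B × B × K, ℝ) ≃L[ℝ] C(B × B, ℝ)) := by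
  obtain ⟨a⟩ := decomposition (compl_K K) (compl_V_BB.trans (compl_BB_K K)) compl_W
  have h1 : Compl C(B × B, ℝ) CV := (compl_BB_K K).trans (compl_K K)
  obtain ⟨b⟩ := decomposition h1 compl_V_BB compl_W
  exact ⟨a.trans b.symm⟩

end

end Pool.Agent.Helper77.BN.Mil
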