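import Mathlib

set_option autoImplicit false
set_option linter.unusedSectionVars false

namespace Pool.Agent.Helper77.BN

open Filter Topology OnePoint

/-- `U` is isomorphic to a complemented subspace of `V`. -/
def Compl (U V : Type) [NormedAddCommGroup U] [NormedSpace ℝ U] [NormedAddCommGroup V]
    [NormedSpace ℝ V] : Prop :=
  ∃ (i : U →L[ℝ] V) (p : V →L[ℝ] U), ∀ u, p (i u) = u

section
variable {U V W : Type} [NormedAddCommGroup U] [NormedSpace ℝ U] [NormedAddCommGroup V]
    [NormedSpace ℝ V] [NormedAddCommGroup W] [NormedSpace ℝ W]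

lemma Compl.refl : Compl U U := ⟨.id ℝ U, .id ℝ U, fun _ => rfl⟩

lemma Compl.trans (h : Compl U V) (h' : Compl V W) : Compl U W := by
  obtain ⟨i, p, hi⟩ := h
  obtain ⟨j, q, hj⟩ := h'
  exact ⟨j.comp i, p.comp q, fun u => by simp [hi, hj]⟩

lemma Compl.split (h : Compl W V) : ∃ A : Submodule ℝ V, Nonempty (V ≃L[ℝ] W × A) := by
  obtain ⟨i, p, hi⟩ := h
  exact ⟨_, ⟨ContinuousLinearEquiv.equivOfRightInverse p i hi⟩⟩

/-- the successor map of the one point compactification -/
noncomputable def sh : C(OnePoint ℕ, OnePoint ℕ) :=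
  continuousMapMkNat (fun n => ((n+1 : ℕ) : OnePoint ℕ)) ∞ (by
    have h : Tendsto (fun n : ℕ => (n : OnePoint ℕ)) atTop (𝓝 ∞) :=
      (continuous_iff_from_nat (fun x : OnePoint ℕ => x)).mp continuous_id
    exact h.comp (tendsto_add_atTop_nat 1))

lemma sh_coe (n : ℕ) : sh (n : OnePoint ℕ) = ((n+1 : ℕ) : OnePoint ℕ) := rfl
lemma sh_infty : sh ∞ = ∞ := rfl

noncomputable def consF (v : V) (w : C(OnePoint ℕ, V)) : C(OnePoint ℕ, V) :=
  continuousMapMkNat (fun n => Nat.casesOn n v (fun n => w (n : OnePoint ℕ))) (w ∞) (by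
    rw [← tendsto_add_atTop_iff_nat 1]
    exact (continuous_iff_from_nat w).mp w.continuous)

lemma consF_zero (v : V) (w : C(OnePoint ℕ, V)) : consF v w ((0 : ℕ) : OnePoint ℕ) = v := rfl
lemma consF_succ (v : V) (w : C(OnePoint ℕ, V)) (n : ℕ) :
    consF v w ((n+1 : ℕ) : OnePoint ℕ) = w (n : OnePoint ℕ) := rfl
lemma consF_infty (v : V) (w : C(OnePoint ℕ, V)) : consF v w ∞ = w ∞ := rfl

lemma ext_op {f g : C(OnePoint ℕ, V)} (h0 : f ((0 : ℕ) : OnePoint ℕ) = g ((0 : ℕ) : OnePoint ℕ))
    (hs : ∀ n : ℕ, f ((n+1 : ℕ) : OnePoint ℕ) = g ((n+1 : ℕ) : OnePoint ℕ))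
    (hi : f ∞ = g ∞) : f = g := by
  ext x
  induction x using OnePoint.rec with
  | infty => exact hi
  | coe n => cases n with
    | zero => exact h0
    | succ n => exact hs n

variable (V) in
noncomputable def consL : (V × C(OnePoint ℕ, V)) →L[ℝ] C(OnePoint ℕ, V) :=
  LinearMap.mkContinuous
    { toFun := fun p => consF p.1 p.2
      map_add' := fun p q => by
        refine ext_op ?_ (fun n => ?_) ?_ <;>
          simp only [ContinuousMap.add_apply, consF_zero, consF_succ, consF_infty, Prod.fst_add,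
            Prod.snd_add]
      map_smul' := fun c p => by
        refine ext_op ?_ (fun n => ?_) ?_ <;>
          simp only [ContinuousMap.smul_apply, consF_zero, consF_succ, consF_infty, Prod.smul_fst,
            Prod.smul_snd, RingHom.id_apply] } 1
    (fun p => by
      rw [one_mul, ContinuousMap.norm_le _ (norm_nonneg _)]
      intro x
      induction x using OnePoint.rec with
      | infty => exact (p.2.norm_coe_le_norm _).trans (norm_snd_le p)
      | coe n => cases n with
        | zero => exact norm_fst_le p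
        | succ n => exact (p.2.norm_coe_le_norm _).trans (norm_snd_le p))

lemma consL_apply (p : V × C(OnePoint ℕ, V)) : consL V p = consF p.1 p.2 := rfl

variable (V) in
noncomputable def shL : C(OnePoint ℕ, V) →L[ℝ] C(OnePoint ℕ, V) :=
  LinearMap.mkContinuous
    { toFun := fun g => g.comp sh
      map_add' := fun _ _ => rfl
      map_smul' := fun _ _ => rfl } 1
    (fun g => by
      rw [one_mul, ContinuousMap.norm_le _ (norm_nonneg _)]
      intro x
      exact g.norm_coe_le_norm (sh x))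

lemma shL_coe (g : C(OnePoint ℕ, V)) (n : ℕ) :
    shL V g (n : OnePoint ℕ) = g ((n+1 : ℕ) : OnePoint ℕ) := rfl
lemma shL_infty (g : C(OnePoint ℕ, V)) : shL V g ∞ = g ∞ := rfl

/-- Absorption: `C(ω+1, V) ≃ U × C(ω+1, V)`. -/
theorem absorb1 (h : Compl U V) : Nonempty (C(OnePoint ℕ, V) ≃L[ℝ] U × C(OnePoint ℕ, V)) := by
  obtain ⟨i, p, hi⟩ := h
  let Q : C(OnePoint ℕ, V) →L[ℝ] C(OnePoint ℕ, V) :=
    (i.comp p).compLeftContinuous ℝ (OnePoint ℕ)
  have hQ : ∀ f x, Q f x = i (p (f x)) := fun f x => rfl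
  let f1 : C(OnePoint ℕ, V) →L[ℝ] U × C(OnePoint ℕ, V) :=
    (p.comp (ContinuousMap.evalCLM ℝ ((0 : ℕ) : OnePoint ℕ))).prod
      (Q.comp (shL V) + (.id ℝ _ - Q))
  let f2 : (U × C(OnePoint ℕ, V)) →L[ℝ] C(OnePoint ℕ, V) :=
    (consL V).comp ((i.comp (.fst ℝ _ _)).prod (Q.comp (.snd ℝ _ _)))
      + (.snd ℝ _ _ - Q.comp (.snd ℝ _ _))
  have h1 : ∀ f, f1 f = (p (f ((0 : ℕ) : OnePoint ℕ)), Q (shL V f) + (f - Q f)) := fun f => rfl
  have h2 : ∀ q, f2 q = consF (i q.1) (Q q.2) + (q.2 - Q q.2) := fun q => rfl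
  refine ⟨ContinuousLinearEquiv.equivOfInverse f1 f2 (fun f => ?_) (fun q => ?_)⟩
  · rw [h1, h2]
    refine ext_op ?_ (fun n => ?_) ?_ <;>
    simp only [ContinuousMap.add_apply, ContinuousMap.sub_apply, consF_zero, consF_succ,
      consF_infty, hQ, map_add, map_sub, hi, shL_coe, shL_infty] <;> abel
  · rw [h2, h1]
    refine Prod.ext ?_ ?_
    · simp only [ContinuousMap.add_apply, ContinuousMap.sub_apply, consF_zero, hQ, map_add,
        map_sub, hi]
      abel
    · ext x
      induction x using OnePoint.rec with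
      | infty =>
        simp only [ContinuousMap.add_apply, ContinuousMap.sub_apply, consF_zero, consF_succ,
          consF_infty, hQ, map_add, map_sub, hi, shL_coe, shL_infty]; abel
      | coe n =>
        cases n with
        | zero =>
          simp only [ContinuousMap.add_apply, ContinuousMap.sub_apply, consF_zero, consF_succ,
            consF_infty, hQ, map_add, map_sub, hi, shL_coe, shL_infty]; abel
        | succ n =>
          simp only [ContinuousMap.add_apply, ContinuousMap.sub_apply, consF_zero, consF_succ,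
            consF_infty, hQ, map_add, map_sub, hi, shL_coe, shL_infty]; abel

/-- Absorption: `V ≃ U × V`. -/
theorem absorb (h : Compl U V) (hW : Compl C(OnePoint ℕ, V) V) : Nonempty (V ≃L[ℝ] U × V) := by
  obtain ⟨A, ⟨e⟩⟩ := hW.split
  obtain ⟨e'⟩ := absorb1 h
  exact ⟨e.trans (((e'.prodCongr (.refl ℝ A)).trans (ContinuousLinearEquiv.prodAssoc ℝ _ _ _)).trans
    ((ContinuousLinearEquiv.refl ℝ U).prodCongr e.symm))⟩

/-- Pelczynski decomposition. -/
theorem decomposition (hUV : Compl U V) (hVU : Compl V U) (hW : Compl C(OnePoint ℕ, V) V) :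
    Nonempty (U ≃L[ℝ] V) := by
  obtain ⟨e1⟩ := absorb hUV hW
  obtain ⟨e2⟩ := absorb (Compl.refl (U := V)) hW
  obtain ⟨A, ⟨e3⟩⟩ := hVU.split
  -- U ≃ V × A ≃ (V × V) × A ≃ V × (V × A) ≃ V × U ≃ U × V ≃ V
  exact ⟨e3.trans (((e2.prodCongr (.refl ℝ A)).trans (ContinuousLinearEquiv.prodAssoc ℝ _ _ _)).trans
    (((ContinuousLinearEquiv.refl ℝ V).prodCongr e3.symm).trans
      ((ContinuousLinearEquiv.prodComm ℝ V U).trans e1.symm)))⟩

end

end Pool.Agent.Helper77.BN
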