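import Mathlib

set_option autoImplicit false

namespace Pool.Agent.Helper77.BN

open Filter Topology

/-- limit along the hyperfilter -/
noncomputable def ulim (f : ℕ → ℝ) : ℝ := limUnder (hyperfilter ℕ : Filter ℕ) f

lemma tendsto_ulim {f : ℕ → ℝ} {C : ℝ} (h : ∀ n, |f n| ≤ C) :
    Tendsto f (hyperfilter ℕ : Filter ℕ) (𝓝 (ulim f)) := by
  have h1 : ((hyperfilter ℕ).map f : Filter ℝ) ≤ 𝓟 (Set.Icc (-C) C) := by
    rw [le_principal_iff]
    simp only [Ultrafilter.coe_map, mem_map]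
    exact Filter.univ_mem' (fun n => abs_le.mp (h n))
  obtain ⟨x, _, hx⟩ := isCompact_Icc.ultrafilter_le_nhds _ h1
  exact tendsto_nhds_limUnder ⟨x, hx⟩

lemma ulim_eq {f : ℕ → ℝ} {x : ℝ} (h : Tendsto f (hyperfilter ℕ : Filter ℕ) (𝓝 x)) :
    ulim f = x := h.limUnder_eq

abbrev B : Type := StoneCech ℕ
abbrev D : Type := ℕ → Bool

abbrev uu (n : ℕ) : B := stoneCechUnit n

lemma dense3 : DenseRange (fun p : ℕ × ℕ × D => ((uu p.1, uu p.2.1, p.2.2) : B × B × D)) :=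
  denseRange_stoneCechUnit.prodMap (denseRange_stoneCechUnit.prodMap denseRange_id)

lemma dense2 : DenseRange (fun p : ℕ × ℕ => ((uu p.1, uu p.2) : B × B)) :=
  denseRange_stoneCechUnit.prodMap denseRange_stoneCechUnit

lemma bound_of_dense (H : C(B × B × D, ℝ)) (C : ℝ) (h : ∀ n m α, |H (uu n, uu m, α)| ≤ C) :
    ∀ x, |H x| ≤ C := by
  intro x
  refine dense3.induction_on (p := fun x => |H x| ≤ C) x ?_ ?_
  · exact isClosed_le (by fun_prop) continuous_const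
  · rintro ⟨n, m, α⟩; exact h n m α

lemma ext_of_dense {H H' : C(B × B × D, ℝ)} (h : ∀ n m α, H (uu n, uu m, α) = H' (uu n, uu m, α)) :
    H = H' := by
  ext x
  have := bound_of_dense (H - H') 0 (fun n m α => by simp [h n m α]) x
  have h2 : |H x - H' x| ≤ 0 := by simpa using this
  have := abs_nonpos_iff.mp h2
  linarith

/-- A function on `ℕ × ℕ × D` that extends continuously. -/
def Ext (Ψ : ℕ → ℕ → D → ℝ) : Prop :=
  ∃ H : C(B × B × D, ℝ), ∀ n m α, H (uu n, uu m, α) = Ψ n m α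

lemma Ext.add {Ψ Ψ' : ℕ → ℕ → D → ℝ} (h : Ext Ψ) (h' : Ext Ψ') :
    Ext (fun n m α => Ψ n m α + Ψ' n m α) := by
  obtain ⟨H, hH⟩ := h
  obtain ⟨H', hH'⟩ := h'
  exact ⟨H + H', fun n m α => by simp [hH, hH']⟩

lemma Ext.mul {Ψ Ψ' : ℕ → ℕ → D → ℝ} (h : Ext Ψ) (h' : Ext Ψ') :
    Ext (fun n m α => Ψ n m α * Ψ' n m α) := by
  obtain ⟨H, hH⟩ := h
  obtain ⟨H', hH'⟩ := h'
  exact ⟨H * H', fun n m α => by simp [hH, hH']⟩

lemma Ext.const (c : ℝ) : Ext (fun _ _ _ => c) :=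
  ⟨ContinuousMap.const _ c, fun _ _ _ => by simp⟩

lemma Ext.ofD {f : D → ℝ} (hf : Continuous f) : Ext (fun _ _ α => f α) :=
  ⟨⟨fun x => f x.2.2, by fun_prop⟩, fun _ _ _ => rfl⟩

lemma Ext.sum {ι : Type} (s : Finset ι) {Ψ : ι → ℕ → ℕ → D → ℝ} (h : ∀ i, Ext (Ψ i)) :
    Ext (fun n m α => ∑ i ∈ s, Ψ i n m α) := by
  classical
  induction s using Finset.induction_on with
  | empty => simpa using Ext.const 0
  | insert a s ha ih =>
    have := (h a).add ih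
    simpa [Finset.sum_insert ha] using this

/-- bounded functions on `ℕ` extend to the Stone-Čech compactification -/
lemma exists_ext (f : ℕ → ℝ) (C : ℝ) (h : ∀ n, |f n| ≤ C) :
    ∃ F : C(B, ℝ), ∀ n, F (uu n) = f n := by
  let g : ℕ → Set.Icc (-C) C := fun n => ⟨f n, abs_le.mp (h n)⟩
  have hc : Continuous g := continuous_of_discreteTopology
  refine ⟨⟨fun s => ((stoneCechExtend hc s : Set.Icc (-C) C) : ℝ), ?_⟩, fun n => ?_⟩
  · exact continuous_subtype_val.comp (continuous_stoneCechExtend hc)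
  · simp [g]

lemma Ext.ofN {f : ℕ → ℝ} {C : ℝ} (h : ∀ n, |f n| ≤ C) : Ext (fun n _ _ => f n) := by
  obtain ⟨F, hF⟩ := exists_ext f C h
  exact ⟨⟨fun x => F x.1, by fun_prop⟩, fun n _ _ => hF n⟩

lemma Ext.ofM {f : ℕ → ℝ} {C : ℝ} (h : ∀ n, |f n| ≤ C) : Ext (fun _ m _ => f m) := by
  obtain ⟨F, hF⟩ := exists_ext f C h
  exact ⟨⟨fun x => F x.2.1, by fun_prop⟩, fun _ m _ => hF m⟩

lemma Ext.of_approx {Ψ : ℕ → ℕ → D → ℝ}
    (h : ∀ ε > 0, ∃ Ψ', Ext Ψ' ∧ ∀ n m α, |Ψ n m α - Ψ' n m α| ≤ ε) : Ext Ψ := by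
  have h1 : ∀ k : ℕ, ∃ H : C(B × B × D, ℝ), ∀ n m α,
      |Ψ n m α - H (uu n, uu m, α)| ≤ 1 / ((k : ℝ) + 1) := by
    intro k
    obtain ⟨Ψ', ⟨H, hH⟩, hΨ⟩ := h (1 / ((k : ℝ) + 1)) (by positivity)
    exact ⟨H, fun n m α => by rw [hH]; exact hΨ n m α⟩
  choose H hH using h1
  have hC : CauchySeq H := by
    refine cauchySeq_of_le_tendsto_0 (fun N : ℕ => 2 * (1 / ((N : ℝ) + 1))) ?_ ?_
    · intro n m N hn hm
      have hN : (0:ℝ) < (N:ℝ) + 1 := by positivity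
      rw [ContinuousMap.dist_le (by positivity)]
      intro x
      rw [Real.dist_eq]
      refine bound_of_dense (H n - H m) _ (fun a b α => ?_) x
      have e1 := hH n a b α
      have e2 := hH m a b α
      have e3 : 1 / ((n : ℝ) + 1) ≤ 1 / ((N : ℝ) + 1) :=
        one_div_le_one_div_of_le hN (by exact_mod_cast Nat.add_le_add_right hn 1)
      have e4 : 1 / ((m : ℝ) + 1) ≤ 1 / ((N : ℝ) + 1) :=
        one_div_le_one_div_of_le hN (by exact_mod_cast Nat.add_le_add_right hm 1)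
      simp only [ContinuousMap.sub_apply]
      rw [abs_le] at e1 e2 ⊢
      constructor <;> linarith [e1.1, e1.2, e2.1, e2.2]
    · have := tendsto_one_div_add_atTop_nhds_zero_nat (𝕜 := ℝ)
      simpa using this.const_mul 2
  obtain ⟨L, hL⟩ := cauchySeq_tendsto_of_complete hC
  refine ⟨L, fun n m α => ?_⟩
  have t1 : Tendsto (fun k => H k (uu n, uu m, α)) atTop (𝓝 (L (uu n, uu m, α))) :=
    ((continuous_eval_const (F := C(B × B × D, ℝ)) (uu n, uu m, α)).tendsto L).comp hL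
  have t2 : Tendsto (fun k => H k (uu n, uu m, α)) atTop (𝓝 (Ψ n m α)) := by
    rw [tendsto_iff_dist_tendsto_zero]
    refine squeeze_zero (fun _ => dist_nonneg) (fun k => ?_)
      (tendsto_one_div_add_atTop_nhds_zero_nat (𝕜 := ℝ))
    rw [dist_comm, Real.dist_eq]
    exact hH k n m α
  exact tendsto_nhds_unique t1 t2

end Pool.Agent.Helper77.BN
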