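import Pool.Agent.Helper77.BN.Rad
import Pool.Agent.Helper77.BN.Ext

set_option autoImplicit false

namespace Pool.Agent.Helper77.BN

open Filter Topology

abbrev VV (j : ℕ) : Type := Fin (4 ^ (j+1))
abbrev WW (j : ℕ) : Type := VV j → Bool

instance (j : ℕ) : Nonempty (VV j) := ⟨⟨0, by positivity⟩⟩

def Xt : ℕ → Type
  | 0 => Unit
  | j+1 => Xt j × VV j

def Yt : ℕ → Type
  | 0 => Unit
  | j+1 => Yt j × WW j

instance instCountableXt : ∀ j, Countable (Xt j)
  | 0 => inferInstanceAs (Countable Unit)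
  | j+1 => by
      have := instCountableXt j
      exact inferInstanceAs (Countable (Xt j × VV j))

instance instCountableYt : ∀ j, Countable (Yt j)
  | 0 => inferInstanceAs (Countable Unit)
  | j+1 => by
      have := instCountableYt j
      exact inferInstanceAs (Countable (Yt j × WW j))

def xs {j : ℕ} (x : Xt j) (a : VV j) : Xt (j+1) := (x, a)
def ys {j : ℕ} (y : Yt j) (w : WW j) : Yt (j+1) := (y, w)

/-- families of functions on all levels -/
abbrev Fam : Type := ∀ j, Xt j → Yt j → ℝ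

noncomputable def MM (α : D) (Φ : Fam) : Fam :=
  fun j x y => Mop (α j) (fun a w => Φ (j+1) (xs x a) (ys y w))

noncomputable def TX (g : ∀ j, Xt j → ℝ) : ∀ j, Xt j → ℝ :=
  fun j x => avg (fun a => g (j+1) (xs x a))

noncomputable def TY (h : ∀ j, Yt j → ℝ) : ∀ j, Yt j → ℝ :=
  fun j y => avg (fun w => h (j+1) (ys y w))

lemma MM_sub (α : D) (Φ Ψ : Fam) : MM α (fun j x y => Φ j x y - Ψ j x y)
    = fun j x y => MM α Φ j x y - MM α Ψ j x y := by
  funext j x y; exact Mop_sub _ _ _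

lemma MM_add (α : D) (Φ Ψ : Fam) : MM α (fun j x y => Φ j x y + Ψ j x y)
    = fun j x y => MM α Φ j x y + MM α Ψ j x y := by
  funext j x y; exact Mop_add _ _ _

lemma MM_smul (α : D) (c : ℝ) (Φ : Fam) : MM α (fun j x y => c * Φ j x y)
    = fun j x y => c * MM α Φ j x y := by
  funext j x y; exact Mop_smul _ _ _

lemma MMi_sub (α : D) (d : ℕ) (Φ Ψ : Fam) : (MM α)^[d] (fun j x y => Φ j x y - Ψ j x y)
    = fun j x y => (MM α)^[d] Φ j x y - (MM α)^[d] Ψ j x y := by
  induction d generalizing Φ Ψ with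
  | zero => rfl
  | succ d ih => rw [Function.iterate_succ_apply, MM_sub, ih]; rfl

lemma MMi_add (α : D) (d : ℕ) (Φ Ψ : Fam) : (MM α)^[d] (fun j x y => Φ j x y + Ψ j x y)
    = fun j x y => (MM α)^[d] Φ j x y + (MM α)^[d] Ψ j x y := by
  induction d generalizing Φ Ψ with
  | zero => rfl
  | succ d ih => rw [Function.iterate_succ_apply, MM_add, ih]; rfl

lemma MMi_smul (α : D) (d : ℕ) (c : ℝ) (Φ : Fam) : (MM α)^[d] (fun j x y => c * Φ j x y)
    = fun j x y => c * (MM α)^[d] Φ j x y := by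
  induction d generalizing Φ with
  | zero => rfl
  | succ d ih => rw [Function.iterate_succ_apply, MM_smul, ih]; rfl

lemma MMi_bound (α : D) (d : ℕ) (k : ℕ) (Φ : Fam) (C : ℝ)
    (h : ∀ x y, |Φ (k+d) x y| ≤ C) : ∀ x y, |(MM α)^[d] Φ k x y| ≤ C := by
  induction d generalizing Φ with
  | zero => exact h
  | succ d ih =>
    rw [Function.iterate_succ_apply]
    exact ih (MM α Φ) (fun x y => Mop_bound _ _ _ (fun a w => h _ _))

lemma cst_eq (j : ℕ) : Real.sqrt (Fintype.card (VV j)) = 2 ^ (j+1) := by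
  have h4 : (4:ℝ) ^ (j+1) = ((2:ℝ) ^ (j+1)) ^ 2 := by
    rw [← pow_mul, mul_comm, pow_mul]; norm_num
  rw [Fintype.card_fin]
  push_cast
  rw [h4, Real.sqrt_sq (by positivity)]

lemma TXi_bound (d : ℕ) (k : ℕ) (g : ∀ j, Xt j → ℝ) (C : ℝ)
    (h : ∀ j x, |g j x| ≤ C) : ∀ x, |TX^[d] g k x| ≤ C := by
  induction d generalizing g with
  | zero => exact h k
  | succ d ih =>
    rw [Function.iterate_succ_apply]
    exact ih (TX g) (fun j x => avg_bound _ _ (fun a => h _ _))

lemma TYi_bound (d : ℕ) (k : ℕ) (g : ∀ j, Yt j → ℝ) (C : ℝ)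
    (h : ∀ j x, |g j x| ≤ C) : ∀ x, |TY^[d] g k x| ≤ C := by
  induction d generalizing g with
  | zero => exact h k
  | succ d ih =>
    rw [Function.iterate_succ_apply]
    exact ih (TY g) (fun j x => avg_bound _ _ (fun a => h _ _))

/-- product estimate -/
lemma MMi_prod (α : D) (d k : ℕ) (g : ∀ j, Xt j → ℝ) (h : ∀ j, Yt j → ℝ) {G H : ℝ}
    (hG : 0 ≤ G) (hH : 0 ≤ H) (hg : ∀ j x, |g j x| ≤ G) (hh : ∀ j y, |h j y| ≤ H) :
    ∀ x y, |(MM α)^[d] (fun j x y => g j x * h j y) k x y - TX^[d] g k x * TY^[d] h k y|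
      ≤ G * H * (1 / 2 ^ k - 1 / 2 ^ (k+d)) := by
  induction d generalizing g h with
  | zero => intro x y; simp
  | succ d ih =>
    intro x y
    rw [Function.iterate_succ_apply, Function.iterate_succ_apply, Function.iterate_succ_apply]
    have ih' := ih (TX g) (TY h) (fun j x => avg_bound _ _ (fun a => hg _ _))
      (fun j y => avg_bound _ _ (fun a => hh _ _)) x y
    have h1 : |(MM α)^[d] (fun j x y => MM α (fun j x y => g j x * h j y) j x y
        - TX g j x * TY h j y) k x y| ≤ G * H / 2 ^ (k+d+1) := by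
      refine MMi_bound α d k _ _ (fun x y => ?_) x y
      have := Mop_prod (α (k+d)) (fun a => g (k+d+1) (xs x a)) (fun w => h (k+d+1) (ys y w))
        hG hH (fun a => hg _ _) (fun w => hh _ _)
      rw [cst_eq] at this
      exact this
    rw [MMi_sub] at h1
    have h2 : G * H * (1 / 2 ^ k - 1 / 2 ^ (k + (d+1)))
        = G * H * (1 / 2 ^ k - 1 / 2 ^ (k+d)) + G * H / 2 ^ (k+d+1) := by
      rw [← add_assoc, pow_succ]; field_simp; ring
    rw [h2]
    refine (abs_sub_le _ ((MM α)^[d] (fun j x y => TX g j x * TY h j y) k x y) _).trans ?_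
    rw [add_comm (G * H * _)]
    exact add_le_add h1 ih'

/-- coordinates -/
def crdX : (j : ℕ) → Xt j → (i : ℕ) → VV i
  | 0, _ => fun _ => ⟨0, by positivity⟩
  | j+1, x => Function.update (crdX j x.1) j x.2

def crdY : (j : ℕ) → Yt j → (i : ℕ) → WW i
  | 0, _ => fun _ _ => false
  | j+1, y => Function.update (crdY j y.1) j y.2

def th (j : ℕ) (x : Xt j) (y : Yt j) : D := fun i => crdY j y i (crdX j x i)

lemma th_succ (j : ℕ) (x : Xt j) (a : VV j) (y : Yt j) (w : WW j) (i : ℕ) :
    th (j+1) (xs x a) (ys y w) i = if i = j then w a else th j x y i := by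
  unfold th
  by_cases h : i = j
  · subst h
    simp [crdX, crdY, xs, ys]
  · simp [crdX, crdY, xs, ys, Function.update_of_ne h, h]

/-- localisation of the coupling -/
lemma MMi_near (α : D) (d k : ℕ) (Φ : Fam) (c ε : ℝ)
    (h : ∀ x y, (∀ i < k+d, th (k+d) x y i = α i) → |Φ (k+d) x y - c| ≤ ε) :
    ∀ x y, (∀ i < k, th k x y i = α i) → |(MM α)^[d] Φ k x y - c| ≤ ε := by
  induction d generalizing Φ with
  | zero => exact h
  | succ d ih =>
    rw [Function.iterate_succ_apply]
    refine ih (MM α Φ) (fun x y hxy => Mop_near _ _ _ _ (fun a w hw => ?_))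
    refine h (xs x a) (ys y w) (fun i hi => ?_)
    have e : th (k + (d + 1)) (xs x a) (ys y w) i = if i = k + d then w a else th (k + d) x y i :=
      th_succ (k+d) x a y w i
    rw [e]
    by_cases hi' : i = k + d
    · rw [if_pos hi', hw, hi']
    · rw [if_neg hi']
      exact hxy i (by omega)

lemma tendsto_Mop {V : Type} [Fintype V] [DecidableEq V] {ι : Type} {l : Filter ι} (b : Bool)
    (Φ : ι → V → (V → Bool) → ℝ)
    (Ψ : V → (V → Bool) → ℝ) (h : ∀ a w, Tendsto (fun i => Φ i a w) l (𝓝 (Ψ a w))) :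
    Tendsto (fun i => Mop b (Φ i)) l (𝓝 (Mop b Ψ)) := by
  unfold Mop
  refine Tendsto.div_const ?_ _
  refine tendsto_finsetSum _ (fun a _ => tendsto_finsetSum _ (fun w _ => ?_))
  exact (h a w).const_mul _

lemma tendsto_MMi {ι : Type} {l : Filter ι} (α : D) (d : ℕ) (Φ : ι → Fam) (Ψ : Fam)
    (h : ∀ j x y, Tendsto (fun i => Φ i j x y) l (𝓝 (Ψ j x y))) :
    ∀ j x y, Tendsto (fun i => (MM α)^[d] (Φ i) j x y) l (𝓝 ((MM α)^[d] Ψ j x y)) := by
  induction d generalizing Φ Ψ with
  | zero => exact h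
  | succ d ih =>
    simp only [Function.iterate_succ_apply]
    exact ih (fun i => MM α (Φ i)) (MM α Ψ) (fun j x y => tendsto_Mop _ _ _ (fun a w => h _ _ _))

lemma Ext_MMi (d : ℕ) (Φ : ℕ → ℕ → D → Fam)
    (h : ∀ j x y, Ext (fun n m α => Φ n m α j x y)) :
    ∀ j x y, Ext (fun n m α => (MM α)^[d] (Φ n m α) j x y) := by
  induction d generalizing Φ with
  | zero => exact h
  | succ d ih =>
    simp only [Function.iterate_succ_apply]
    refine ih (fun n m α => MM α (Φ n m α)) (fun j x y => ?_)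
    unfold MM Mop
    have h1 : ∀ (a : VV j) (w : WW j), Ext (fun n m α => (1 + sg (α j) * sg (w a))
        * Φ n m α (j+1) (xs x a) (ys y w)) := by
      intro a w
      refine Ext.mul (Ext.ofD (f := fun α => 1 + sg (α j) * sg (w a)) ?_) (h _ _ _)
      have : Continuous sg := continuous_of_discreteTopology
      fun_prop
    have h2 := Ext.sum Finset.univ (fun a => Ext.sum Finset.univ (fun w => h1 a w))
    have h3 := h2.mul (Ext.const (1 / (Fintype.card (VV j) * Fintype.card (WW j))))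
    simpa only [mul_one_div] using h3

end Pool.Agent.Helper77.BN
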