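import Pool.Agent.Helper77.BN.Top

set_option autoImplicit false
set_option linter.unusedSectionVars false

namespace Pool.Agent.Helper77.BN.Mil

open Filter Topology

/-- the product of finite sets -/
abbrev SS (m : ℕ → ℕ) : Type := ∀ n, Fin (m n + 1)

section
variable {K : Type} [MetricSpace K] [CompactSpace K]
variable {E : Type} [NormedAddCommGroup E] [NormedSpace ℝ E]
variable {m : ℕ → ℕ}

/-- average the coordinate `j` -/
def RR (p : ∀ n, Fin (m n + 1) → C(K, ℝ)) (j : ℕ) (G : K → SS m → E) : K → SS m → E :=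
  fun k s => ∑ i, p j i k • G k (Function.update s j i)

/-- average the first `M` coordinates -/
def TT (p : ∀ n, Fin (m n + 1) → C(K, ℝ)) : ℕ → (K → SS m → E) → (K → SS m → E)
  | 0, G => G
  | M + 1, G => RR p M (TT p M G)

lemma TT_add (p : ∀ n, Fin (m n + 1) → C(K, ℝ)) (M : ℕ) (G H : K → SS m → E) :
    TT p M (fun k s => G k s + H k s) = fun k s => TT p M G k s + TT p M H k s := by
  induction M with
  | zero => rfl
  | succ M ih =>
    funext k s
    simp only [TT, RR, ih, smul_add, Finset.sum_add_distrib]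

lemma TT_smul (p : ∀ n, Fin (m n + 1) → C(K, ℝ)) (M : ℕ) (c : ℝ) (G : K → SS m → E) :
    TT p M (fun k s => c • G k s) = fun k s => c • TT p M G k s := by
  induction M with
  | zero => rfl
  | succ M ih =>
    funext k s
    simp only [TT, RR, ih, Finset.smul_sum]
    exact Finset.sum_congr rfl fun i _ => smul_comm _ _ _

lemma TT_cont (p : ∀ n, Fin (m n + 1) → C(K, ℝ)) (M : ℕ) (G : K → SS m → E)
    (hG : Continuous fun q : K × SS m => G q.1 q.2) :
    Continuous fun q : K × SS m => TT p M G q.1 q.2 := by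
  induction M with
  | zero => exact hG
  | succ M ih =>
    simp only [TT, RR]
    refine continuous_finsetSum _ fun i _ => ?_
    refine ((p M i).continuous.comp continuous_fst).smul ?_
    have h : Continuous fun q : K × SS m => ((q.1, Function.update q.2 M i) : K × SS m) :=
      continuous_fst.prodMk (continuous_snd.update M continuous_const)
    exact ih.comp h

lemma convex_le {ι : Type} [Fintype ι] (a : ι → ℝ) (ha : ∀ i, 0 ≤ a i) (h1 : ∑ i, a i = 1)
    (x y : ι → E) (ε : ℝ) (h : ∀ i, 0 < a i → ‖x i - y i‖ ≤ ε) :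
    ‖∑ i, a i • x i - ∑ i, a i • y i‖ ≤ ε := by
  rw [← Finset.sum_sub_distrib]
  calc ‖∑ i, (a i • x i - a i • y i)‖ ≤ ∑ i, ‖a i • x i - a i • y i‖ := norm_sum_le _ _
    _ ≤ ∑ i, a i * ε := by
        refine Finset.sum_le_sum fun i _ => ?_
        rw [← smul_sub, norm_smul, Real.norm_of_nonneg (ha i)]
        rcases (ha i).eq_or_lt with h0 | h0
        · rw [← h0]; simp
        · exact mul_le_mul_of_nonneg_left (h i h0) (ha i)
    _ = ε := by rw [← Finset.sum_mul, h1, one_mul]

lemma convex_const {ι : Type} [Fintype ι] (a : ι → ℝ) (h1 : ∑ i, a i = 1) (y : E) :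
    ∑ i, a i • y = y := by
  rw [← Finset.sum_smul, h1, one_smul]

variable (p : ∀ n, Fin (m n + 1) → C(K, ℝ)) (p0 : ∀ n i k, 0 ≤ p n i k)
  (p1 : ∀ n k, ∑ i, p n i k = 1)

include p0 p1 in
lemma TT_bound (M : ℕ) (G : K → SS m → E) (C : ℝ) (hG : ∀ k s, ‖G k s‖ ≤ C) (k : K) (s : SS m) :
    ‖TT p M G k s‖ ≤ C := by
  induction M generalizing s with
  | zero => exact hG k s
  | succ M ih =>
    have := convex_le (fun i => p M i k) (fun i => p0 M i k) (p1 M k)
      (fun i => TT p M G k (Function.update s M i)) (fun _ => 0) C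
      (fun i _ => by rw [sub_zero]; exact ih _)
    simpa only [TT, RR, smul_zero, Finset.sum_const_zero, sub_zero] using this

/-- agreement below `N` -/
def Agr (N : ℕ) (s t : SS m) : Prop := ∀ n < N, s n = t n

lemma Agr.update {N : ℕ} {s t : SS m} (h : Agr N s t) (j : ℕ) (i : Fin (m j + 1)) :
    Agr N (Function.update s j i) (Function.update t j i) := by
  intro n hn
  by_cases hj : n = j
  · subst hj; simp
  · rw [Function.update_of_ne hj, Function.update_of_ne hj]; exact h n hn

lemma Agr.update_left {N : ℕ} {s t : SS m} (h : Agr N s t) {j : ℕ} (hj : N ≤ j)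
    (i : Fin (m j + 1)) : Agr N (Function.update s j i) t := by
  intro n hn
  rw [Function.update_of_ne (by omega)]; exact h n hn

include p0 p1 in
lemma TT_osc (N M : ℕ) (G : K → SS m → E) (ε : ℝ)
    (hG : ∀ k s t, Agr N s t → ‖G k s - G k t‖ ≤ ε) (k : K) (s t : SS m) (h : Agr N s t) :
    ‖TT p M G k s - TT p M G k t‖ ≤ ε := by
  induction M generalizing s t with
  | zero => exact hG k s t h
  | succ M ih =>
    exact convex_le (fun i => p M i k) (fun i => p0 M i k) (p1 M k) _ _ ε
      (fun i _ => ih _ _ (h.update M i))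

include p0 p1 in
lemma TT_cauchy (N j : ℕ) (G : K → SS m → E) (ε : ℝ)
    (hG : ∀ k s t, Agr N s t → ‖G k s - G k t‖ ≤ ε) (k : K) (s t : SS m) (h : Agr N s t) :
    ‖TT p (N + j) G k s - TT p N G k t‖ ≤ ε := by
  induction j generalizing s with
  | zero => exact TT_osc p p0 p1 N N G ε hG k s t h
  | succ j ih =>
    have := convex_le (fun i => p (N + j) i k) (fun i => p0 (N + j) i k) (p1 (N + j) k)
      (fun i => TT p (N + j) G k (Function.update s (N + j) i)) (fun _ => TT p N G k t) ε
      (fun i _ => ih _ (h.update_left (by omega) i))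
    rw [convex_const _ (p1 (N + j) k)] at this
    exact this

include p0 p1 in
lemma TT_eval (N M : ℕ) (f : SS m → E) (ε : ℝ) (k : K) (y : E)
    (hf : ∀ s, (∀ n < N, 0 < p n (s n) k) → ‖f s - y‖ ≤ ε) (hM : M ≤ N)
    (s : SS m) (hs : ∀ n < N, M ≤ n → 0 < p n (s n) k) :
    ‖TT p M (fun _ s => f s) k s - y‖ ≤ ε := by
  induction M generalizing s with
  | zero => exact hf s (fun n hn => hs n hn (Nat.zero_le _))
  | succ M ih =>
    have := convex_le (fun i => p M i k) (fun i => p0 M i k) (p1 M k)
      (fun i => TT p M (fun _ s => f s) k (Function.update s M i)) (fun _ => y) ε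
      (fun i hi => ih (by omega) _ (fun n hn hMn => by
        by_cases hj : n = M
        · subst hj; simpa using hi
        · rw [Function.update_of_ne hj]; exact hs n hn (by omega)))
    rw [convex_const _ (p1 M k)] at this
    exact this

lemma unif (f : C(SS m, E)) (ε : ℝ) (hε : 0 < ε) :
    ∃ N, ∀ s t : SS m, Agr N s t → ‖f s - f t‖ ≤ ε := by
  let := PiNat.metricSpace (E := fun n => Fin (m n + 1))
  have huc := CompactSpace.uniformContinuous_of_continuous f.continuous
  obtain ⟨δ, hδ, h⟩ := Metric.uniformContinuous_iff.mp huc ε hε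
  obtain ⟨N, hN⟩ := exists_pow_lt_of_lt_one hδ (show (1 / 2 : ℝ) < 1 by norm_num)
  refine ⟨N, fun s t hs => ?_⟩
  have h1 : dist s t ≤ (1 / 2 : ℝ) ^ N := by
    rw [← PiNat.mem_cylinder_iff_dist_le, PiNat.mem_cylinder_iff]
    exact hs
  have := h (lt_of_le_of_lt h1 hN)
  rw [dist_eq_norm] at this
  exact this.le

/-- stage `M` of the averaging operator -/
noncomputable def AM (M : ℕ) : C(SS m, E) →ₗ[ℝ] C(K, E) where
  toFun f := ⟨fun k => TT p M (fun _ s => f s) k (fun _ => 0), by
    have := TT_cont p M (fun _ s => f s) (f.continuous.comp continuous_snd)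
    exact this.comp (continuous_id.prodMk continuous_const)⟩
  map_add' f g := by
    ext k
    exact congrFun (congrFun (TT_add p M (fun _ s => f s) (fun _ s => g s)) k) _
  map_smul' c f := by
    ext k
    exact congrFun (congrFun (TT_smul p M c (fun _ s => f s)) k) _

lemma AM_apply (M : ℕ) (f : C(SS m, E)) (k : K) :
    AM p M f k = TT p M (fun _ s => f s) k (fun _ => 0) := rfl

include p0 p1 in
lemma AM_norm (M : ℕ) (f : C(SS m, E)) : ‖AM p M f‖ ≤ ‖f‖ := by
  refine (ContinuousMap.norm_le _ (norm_nonneg f)).mpr (fun k => ?_)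
  rw [AM_apply]
  exact TT_bound p p0 p1 M _ _ (fun _ s => f.norm_coe_le_norm s) k _

include p0 p1 in
lemma AM_cauchy (f : C(SS m, E)) : CauchySeq (fun M => AM p M f) := by
  rw [Metric.cauchySeq_iff']
  intro ε hε
  obtain ⟨N, hN⟩ := unif f (ε / 2) (half_pos hε)
  refine ⟨N, fun M hM => lt_of_le_of_lt ?_ (half_lt_self hε)⟩
  obtain ⟨j, rfl⟩ := Nat.exists_eq_add_of_le hM
  refine (ContinuousMap.dist_le (half_pos hε).le).mpr (fun k => ?_)
  rw [dist_eq_norm]
  exact TT_cauchy p p0 p1 N j _ _ (fun _ s t h => hN s t h) k _ _ (fun _ _ => rfl)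

include p0 p1 in
/-- Milutin's averaging operator -/
theorem exists_average [CompleteSpace E] (q : C(SS m, K))
    (hq : ∀ s k, (∀ n, 0 < p n (s n) k) → q s = k) :
    ∃ A : C(SS m, E) →L[ℝ] C(K, E), ∀ g : C(K, E), A (g.comp q) = g := by
  have hlim : ∀ f : C(SS m, E), ∃ g : C(K, E), Tendsto (fun M => AM p M f) atTop (𝓝 g) :=
    fun f => cauchySeq_tendsto_of_complete (AM_cauchy p p0 p1 f)
  choose L hL using hlim
  let A0 : C(SS m, E) →ₗ[ℝ] C(K, E) :=
    { toFun := L
      map_add' := fun f g => tendsto_nhds_unique (hL (f + g)) (by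
        have := (hL f).add (hL g)
        simpa only [← map_add] using this)
      map_smul' := fun c f => tendsto_nhds_unique (hL (c • f)) (by
        have := (hL f).const_smul c
        simpa only [← _root_.map_smul, RingHom.id_apply] using this) }
  refine ⟨A0.mkContinuous 1 (fun f => ?_), fun g => ?_⟩
  · rw [one_mul]
    exact le_of_tendsto (hL f).norm (Eventually.of_forall fun M => AM_norm p p0 p1 M f)
  · change L (g.comp q) = g
    refine tendsto_nhds_unique (hL (g.comp q)) ?_
    rw [Metric.tendsto_atTop]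
    intro ε hε
    obtain ⟨N, hN⟩ := unif (g.comp q) (ε / 4) (by positivity)
    refine ⟨N, fun M hM => lt_of_le_of_lt ?_ (half_lt_self hε)⟩
    obtain ⟨j, rfl⟩ := Nat.exists_eq_add_of_le hM
    refine (ContinuousMap.dist_le (half_pos hε).le).mpr (fun k => ?_)
    rw [dist_eq_norm, AM_apply]
    have h1 := TT_cauchy p p0 p1 N j (fun (_ : K) s => (g.comp q) s) _
      (fun _ s t h => hN s t h) k (fun _ => 0) (fun _ => 0) (fun _ _ => rfl)
    have hpos : ∀ n, ∃ i, 0 < p n i k := by
      intro n
      by_contra hno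
      push Not at hno
      have : ∑ i, p n i k ≤ 0 := Finset.sum_nonpos fun i _ => hno i
      rw [p1 n k] at this
      linarith
    choose w hw using hpos
    have h2 := TT_eval p p0 p1 N N (fun s => (g.comp q) s) (ε / 4) k (g k)
      (fun s hs => by
        let t : SS m := fun n => if n < N then s n else w n
        have ht : q t = k := hq t k (fun n => by
          by_cases hn : n < N
          · simp only [t, hn, if_true]; exact hs n hn
          · simp only [t, hn, if_false]; exact hw n)
        have := hN s t (fun n hn => by simp only [t, hn, if_true])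
        rwa [ContinuousMap.comp_apply g q t, ht] at this) le_rfl (fun _ => 0)
      (fun n hn hn' => by omega)
    calc _ = ‖(TT p (N + j) (fun (_ : K) s => (g.comp q) s) k (fun _ => 0)
            - TT p N (fun (_ : K) s => (g.comp q) s) k (fun _ => 0))
          + (TT p N (fun (_ : K) s => (g.comp q) s) k (fun _ => 0) - g k)‖ := by
            congr 1; abel
      _ ≤ ε / 4 + ε / 4 := (norm_add_le _ _).trans (add_le_add h1 h2)
      _ = ε / 2 := by ring

end

end Pool.Agent.Helper77.BN.Mil
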