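import Mathlib

set_option autoImplicit false

namespace Pool.Agent.Helper77.BN

open Filter Topology OnePoint

/-- the indicator of the isolated point `n` -/
noncomputable def ei (n : ℕ) : C(OnePoint ℕ, ℝ) :=
  continuousMapMkNat (fun m => if m = n then 1 else 0) 0 (by
    refine tendsto_const_nhds.congr' ?_
    filter_upwards [eventually_gt_atTop n] with m hm
    rw [if_neg (by omega)])

lemma ei_coe (n m : ℕ) : ei n (m : OnePoint ℕ) = if m = n then 1 else 0 := rfl
lemma ei_infty (n : ℕ) : ei n ∞ = 0 := rfl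

lemma sum_ei_coe (F : Finset ℕ) (c : ℕ → ℝ) (m : ℕ) :
    (∑ n ∈ F, c n • ei n) (m : OnePoint ℕ) = if m ∈ F then c m else 0 := by
  rw [ContinuousMap.sum_apply]
  simp only [ContinuousMap.smul_apply, ei_coe, smul_eq_mul, mul_ite, mul_one, mul_zero]
  rw [Finset.sum_ite_eq]

lemma sum_ei_infty (F : Finset ℕ) (c : ℕ → ℝ) :
    (∑ n ∈ F, c n • ei n) ∞ = 0 := by
  rw [ContinuousMap.sum_apply]
  simp [ei_infty]

lemma summable_ei (φ : C(OnePoint ℕ, ℝ) →L[ℝ] ℝ) : Summable (fun n => |φ (ei n)|) := by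
  refine summable_of_sum_le (c := ‖φ‖) (fun _ => abs_nonneg _) (fun F => ?_)
  let c : ℕ → ℝ := fun n => SignType.sign (φ (ei n))
  have h1 : ∑ n ∈ F, |φ (ei n)| = φ (∑ n ∈ F, c n • ei n) := by
    rw [map_sum]
    refine Finset.sum_congr rfl fun n _ => ?_
    rw [_root_.map_smul, smul_eq_mul]
    exact (sign_mul_self _).symm
  have h2 : ‖∑ n ∈ F, c n • ei n‖ ≤ 1 := by
    refine (ContinuousMap.norm_le _ zero_le_one).mpr (fun x => ?_)
    induction x using OnePoint.rec with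
    | infty => rw [sum_ei_infty]; simp
    | coe m =>
      rw [sum_ei_coe]
      split_ifs
      · simp only [c, Real.norm_eq_abs]
        rcases lt_trichotomy (φ (ei m)) 0 with h | h | h
        · simp [sign_neg h]
        · simp [h]
        · simp [sign_pos h]
      · simp
  rw [h1]
  calc φ (∑ n ∈ F, c n • ei n) ≤ |φ (∑ n ∈ F, c n • ei n)| := le_abs_self _
    _ = ‖φ (∑ n ∈ F, c n • ei n)‖ := (Real.norm_eq_abs _).symm
    _ ≤ ‖φ‖ * ‖∑ n ∈ F, c n • ei n‖ := φ.le_opNorm _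
    _ ≤ ‖φ‖ * 1 := mul_le_mul_of_nonneg_left h2 (ContinuousLinearMap.opNorm_nonneg φ)
    _ = ‖φ‖ := mul_one _

lemma rep (φ : C(OnePoint ℕ, ℝ) →L[ℝ] ℝ) (g : C(OnePoint ℕ, ℝ)) :
    φ g = g ∞ * φ 1 + ∑' n : ℕ, (g (n : OnePoint ℕ) - g ∞) * φ (ei n) := by
  have hg : Tendsto (fun n : ℕ => g (n : OnePoint ℕ)) atTop (𝓝 (g ∞)) :=
    (continuous_iff_from_nat g).mp g.continuous
  have h1 : Tendsto (fun N : ℕ => ∑ n ∈ Finset.range N, (g (n : OnePoint ℕ) - g ∞) • ei n) atTop
      (𝓝 (g - g ∞ • (1 : C(OnePoint ℕ, ℝ)))) := by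
    rw [Metric.tendsto_atTop]
    intro ε hε
    obtain ⟨N, hN⟩ := Metric.tendsto_atTop.mp hg (ε/2) (by positivity)
    refine ⟨N, fun M hM => lt_of_le_of_lt ?_ (half_lt_self hε)⟩
    refine (ContinuousMap.dist_le (by positivity)).mpr (fun x => ?_)
    induction x using OnePoint.rec with
    | infty =>
      rw [sum_ei_infty]
      simp
      positivity
    | coe m =>
      rw [sum_ei_coe]
      split_ifs with h
      · simp
        positivity
      · have hm : N ≤ m := by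
          have : ¬ m < M := by simpa using h
          omega
        have := (hN m hm).le
        rw [dist_comm]
        simpa [Real.dist_eq] using this
  have h2 := (φ.continuous.tendsto _).comp h1
  have h3 : (φ ∘ fun N : ℕ => ∑ n ∈ Finset.range N, (g (n : OnePoint ℕ) - g ∞) • ei n)
      = fun N : ℕ => ∑ n ∈ Finset.range N, (g (n : OnePoint ℕ) - g ∞) * φ (ei n) := by
    funext N
    simp [map_sum]
  rw [h3] at h2
  have hs : Summable (fun n : ℕ => (g (n : OnePoint ℕ) - g ∞) * φ (ei n)) := by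
    refine Summable.of_norm_bounded (g := fun n => (2 * ‖g‖) * |φ (ei n)|)
      ((summable_ei φ).mul_left _) (fun n => ?_)
    rw [norm_mul, Real.norm_eq_abs, Real.norm_eq_abs]
    refine mul_le_mul_of_nonneg_right ?_ (abs_nonneg _)
    have a1 := g.norm_coe_le_norm (n : OnePoint ℕ)
    have a2 := g.norm_coe_le_norm (∞ : OnePoint ℕ)
    rw [Real.norm_eq_abs] at a1 a2
    exact (abs_sub _ _).trans (by linarith)
  have h4 := hs.hasSum.tendsto_sum_nat
  have h5 := tendsto_nhds_unique h2 h4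
  rw [← h5]
  simp

lemma weak {φ : C(OnePoint ℕ, ℝ) →L[ℝ] ℝ} {g : ℕ → C(OnePoint ℕ, ℝ)} {C : ℝ}
    (hC : ∀ k, ‖g k‖ ≤ C) {a : OnePoint ℕ → ℝ}
    (ha : ∀ y, Tendsto (fun k => g k y) atTop (𝓝 (a y))) :
    ∃ L, Tendsto (fun k => φ (g k)) atTop (𝓝 L) := by
  refine ⟨a ∞ * φ 1 + ∑' n : ℕ, (a (n : OnePoint ℕ) - a ∞) * φ (ei n), ?_⟩
  have hrep : (fun k => φ (g k)) = fun k => (g k) ∞ * φ 1
      + ∑' n : ℕ, ((g k) (n : OnePoint ℕ) - (g k) ∞) * φ (ei n) := by
    funext k; exact rep φ (g k)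
  rw [hrep]
  refine ((ha ∞).mul_const _).add ?_
  refine tendsto_tsum_of_dominated_convergence (bound := fun n => (2 * C) * |φ (ei n)|)
    ((summable_ei φ).mul_left _) (fun n => (((ha n).sub (ha ∞)).mul_const _)) ?_
  refine Eventually.of_forall (fun k n => ?_)
  rw [norm_mul, Real.norm_eq_abs, Real.norm_eq_abs]
  refine mul_le_mul_of_nonneg_right ?_ (abs_nonneg _)
  have a1 := (g k).norm_coe_le_norm (n : OnePoint ℕ)
  have a2 := (g k).norm_coe_le_norm (∞ : OnePoint ℕ)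
  rw [Real.norm_eq_abs] at a1 a2
  have := hC k
  exact (abs_sub _ _).trans (by linarith)

/-- coordinate functions on the Cantor space -/
noncomputable def rad (k : ℕ) : C(ℕ → Bool, ℝ) where
  toFun x := if x k then 1 else 0
  continuous_toFun := by
    have h1 : Continuous (fun b : Bool => if b then (1:ℝ) else 0) := continuous_of_discreteTopology
    exact h1.comp (continuous_apply k)

lemma rad_apply (k : ℕ) (x : ℕ → Bool) : rad k x = if x k then 1 else 0 := rfl

theorem not_iso : ¬ Nonempty (C(OnePoint ℕ, ℝ) ≃L[ℝ] C(ℕ → Bool, ℝ)) := by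
  rintro ⟨T⟩
  have hr : ∀ k, ‖rad k‖ ≤ 1 := fun k => by
    refine (ContinuousMap.norm_le _ zero_le_one).mpr (fun x => ?_)
    rw [rad_apply]; split_ifs <;> simp
  set C : ℝ := ‖(T.symm : C(ℕ → Bool, ℝ) →L[ℝ] C(OnePoint ℕ, ℝ))‖ with hCdef
  have hf : ∀ k, ‖T.symm (rad k)‖ ≤ C := fun k => by
    have := (T.symm : C(ℕ → Bool, ℝ) →L[ℝ] C(OnePoint ℕ, ℝ)).le_opNorm (rad k)
    refine this.trans ?_
    calc _ ≤ C * 1 := mul_le_mul_of_nonneg_left (hr k) (ContinuousLinearMap.opNorm_nonneg _)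
      _ = C := mul_one _
  have : Countable (OnePoint ℕ) := inferInstanceAs (Countable (Option ℕ))
  have hcomp : IsCompact (Set.pi Set.univ (fun _ : OnePoint ℕ => Set.Icc (-C) C)) :=
    isCompact_univ_pi (fun _ => isCompact_Icc)
  obtain ⟨a, _, σ, hσ, ha⟩ := hcomp.tendsto_subseq (x := fun k => (T.symm (rad k) : OnePoint ℕ → ℝ))
    (fun k y _ => by
      have h1 := (T.symm (rad k)).norm_coe_le_norm y
      rw [Real.norm_eq_abs] at h1
      exact abs_le.mp (h1.trans (hf k)))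
  rw [tendsto_pi_nhds] at ha
  classical
  let x : ℕ → Bool := fun i => decide (∃ k, σ (2 * k) = i)
  have hx0 : ∀ k, x (σ (2 * k)) = true := fun k => by simp [x]
  have hx1 : ∀ k, x (σ (2 * k + 1)) = false := fun k => by
    simp only [x, decide_eq_false_iff_not]
    rintro ⟨k', hk'⟩
    have := hσ.injective hk'
    omega
  obtain ⟨L, hL⟩ := weak (φ := (ContinuousMap.evalCLM ℝ x).comp
    (T : C(OnePoint ℕ, ℝ) →L[ℝ] C(ℕ → Bool, ℝ))) (g := fun k => T.symm (rad (σ k)))
    (fun k => hf (σ k)) ha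
  have h3 : (fun k => ((ContinuousMap.evalCLM ℝ x).comp
    (T : C(OnePoint ℕ, ℝ) →L[ℝ] C(ℕ → Bool, ℝ))) (T.symm (rad (σ k)))) = fun k => rad (σ k) x := by
    funext k
    simp
  rw [h3] at hL
  have hL0 : Tendsto (fun k : ℕ => rad (σ (2 * k)) x) atTop (𝓝 L) :=
    hL.comp (tendsto_atTop_mono (fun k => by simp only [id]; omega) tendsto_id :
      Tendsto (fun k : ℕ => 2 * k) atTop atTop)
  have hL1 : Tendsto (fun k : ℕ => rad (σ (2 * k + 1)) x) atTop (𝓝 L) :=
    hL.comp (tendsto_atTop_mono (fun k => by simp only [id]; omega) tendsto_id :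
      Tendsto (fun k : ℕ => 2 * k + 1) atTop atTop)
  simp only [rad_apply, hx0, hx1] at hL0 hL1
  have e0 := tendsto_nhds_unique hL0 tendsto_const_nhds
  have e1 := tendsto_nhds_unique hL1 tendsto_const_nhds
  rw [e0] at e1
  simp at e1

end Pool.Agent.Helper77.BN
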