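import Pool.Agent.Helper77.BN.Fam

set_option autoImplicit false

namespace Pool.Agent.Helper77.BN

open Filter Topology

lemma exists_dcX : ∃ f : ℕ → ℕ × (Σ j, Xt j), Function.Surjective f :=
  have : Nonempty (Σ j, Xt j) := ⟨⟨0, ()⟩⟩
  exists_surjective_nat _

lemma exists_dcY : ∃ f : ℕ → ℕ × (Σ j, Yt j), Function.Surjective f :=
  have : Nonempty (Σ j, Yt j) := ⟨⟨0, ()⟩⟩
  exists_surjective_nat _

noncomputable def dcX : ℕ → ℕ × (Σ j, Xt j) := exists_dcX.choose
noncomputable def dcY : ℕ → ℕ × (Σ j, Yt j) := exists_dcY.choose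
noncomputable def cdX : ℕ × (Σ j, Xt j) → ℕ := Function.surjInv exists_dcX.choose_spec
noncomputable def cdY : ℕ × (Σ j, Yt j) → ℕ := Function.surjInv exists_dcY.choose_spec

lemma dcX_cdX (p : ℕ × (Σ j, Xt j)) : dcX (cdX p) = p := Function.surjInv_eq _ p
lemma dcY_cdY (p : ℕ × (Σ j, Yt j)) : dcY (cdY p) = p := Function.surjInv_eq _ p

noncomputable def aX : B → B :=
  stoneCechExtend (g := fun n => uu (dcX n).1) continuous_of_discreteTopology
noncomputable def aY : B → B :=
  stoneCechExtend (g := fun n => uu (dcY n).1) continuous_of_discreteTopology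
noncomputable def cX (i : ℕ) : B → VV i :=
  stoneCechExtend (g := fun n => crdX (dcX n).2.1 (dcX n).2.2 i) continuous_of_discreteTopology
noncomputable def cY (i : ℕ) : B → WW i :=
  stoneCechExtend (g := fun n => crdY (dcY n).2.1 (dcY n).2.2 i) continuous_of_discreteTopology

lemma continuous_aX : Continuous aX := continuous_stoneCechExtend _
lemma continuous_aY : Continuous aY := continuous_stoneCechExtend _
lemma continuous_cX (i : ℕ) : Continuous (cX i) := continuous_stoneCechExtend _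
lemma continuous_cY (i : ℕ) : Continuous (cY i) := continuous_stoneCechExtend _

noncomputable def Gam : C(B × B, B × B × D) where
  toFun p := (aX p.1, aY p.2, fun i => cY i p.2 (cX i p.1))
  continuous_toFun := by
    refine (continuous_aX.comp continuous_fst).prodMk
      ((continuous_aY.comp continuous_snd).prodMk (continuous_pi fun i => ?_))
    have h1 : Continuous (fun p : WW i × VV i => p.1 p.2) := continuous_of_discreteTopology
    exact h1.comp (((continuous_cY i).comp continuous_snd).prodMk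
      ((continuous_cX i).comp continuous_fst))

lemma Gam_apply (n m j : ℕ) (x : Xt j) (j' : ℕ) (y : Yt j') :
    Gam (uu (cdX (n, ⟨j, x⟩)), uu (cdY (m, ⟨j', y⟩)))
      = (uu n, uu m, fun i => crdY j' y i (crdX j x i)) := by
  simp only [Gam, ContinuousMap.coe_mk, aX, aY, cX, cY, uu, stoneCechExtend_stoneCechUnit]
  rw [dcX_cdX, dcY_cdY]

/-- the family attached to `G` and `n, m` -/
noncomputable def fam (G : C(B × B, ℝ)) (n m : ℕ) : Fam :=
  fun j x y => G (uu (cdX (n, ⟨j, x⟩)), uu (cdY (m, ⟨j, y⟩)))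

noncomputable def aj (G : C(B × B, ℝ)) (n m : ℕ) (α : D) (j : ℕ) : ℝ :=
  (MM α)^[j] (fam G n m) 0 () ()

lemma aj_bound (G : C(B × B, ℝ)) {C : ℝ} (h : ∀ x, |G x| ≤ C) (n m : ℕ) (α : D) (j : ℕ) :
    |aj G n m α j| ≤ C :=
  MMi_bound α j 0 _ C (fun _ _ => h _) _ _

lemma norm_bound (G : C(B × B, ℝ)) (x) : |G x| ≤ ‖G‖ := by
  rw [← Real.norm_eq_abs]; exact G.norm_coe_le_norm x

noncomputable def Pt (G : C(B × B, ℝ)) (n m : ℕ) (α : D) : ℝ := ulim (aj G n m α)

lemma Pt_tendsto (G : C(B × B, ℝ)) (n m : ℕ) (α : D) :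
    Tendsto (aj G n m α) (hyperfilter ℕ : Filter ℕ) (𝓝 (Pt G n m α)) :=
  tendsto_ulim (C := ‖G‖) (fun j => aj_bound G (norm_bound G) n m α j)

lemma Pt_add (G G' : C(B × B, ℝ)) (n m : ℕ) (α : D) :
    Pt (G + G') n m α = Pt G n m α + Pt G' n m α := by
  refine ulim_eq ?_
  have h : ∀ j, aj (G + G') n m α j = aj G n m α j + aj G' n m α j := by
    intro j
    unfold aj
    have := MMi_add α j (fam G n m) (fam G' n m)
    exact congrFun (congrFun (congrFun this 0) ()) ()
  exact ((Pt_tendsto G n m α).add (Pt_tendsto G' n m α)).congr (fun j => (h j).symm)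

lemma Pt_smul (c : ℝ) (G : C(B × B, ℝ)) (n m : ℕ) (α : D) :
    Pt (c • G) n m α = c * Pt G n m α := by
  refine ulim_eq ?_
  have h : ∀ j, aj (c • G) n m α j = c * aj G n m α j := by
    intro j
    unfold aj
    have := MMi_smul α j c (fam G n m)
    exact congrFun (congrFun (congrFun this 0) ()) ()
  exact ((Pt_tendsto G n m α).const_mul c).congr (fun j => (h j).symm)

lemma Pt_bound (G : C(B × B, ℝ)) {C : ℝ} (h : ∀ x, |G x| ≤ C) (n m : ℕ) (α : D) :
    |Pt G n m α| ≤ C :=
  le_of_tendsto (Pt_tendsto G n m α).abs (Eventually.of_forall fun j => aj_bound G h n m α j)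

/-- product functions -/
def prodF (g h : C(B, ℝ)) : C(B × B, ℝ) := ⟨fun p => g p.1 * h p.2, by fun_prop⟩

lemma Ext_Pt_prod (g h : C(B, ℝ)) : Ext (Pt (prodF g h)) := by
  have hgb : ∀ s, |g s| ≤ ‖g‖ := fun s => by rw [← Real.norm_eq_abs]; exact g.norm_coe_le_norm s
  have hhb : ∀ s, |h s| ≤ ‖h‖ := fun s => by rw [← Real.norm_eq_abs]; exact h.norm_coe_le_norm s
  refine Ext.of_approx (fun ε hε => ?_)
  obtain ⟨k, hk⟩ : ∃ k : ℕ, ‖g‖ * ‖h‖ * (1 / 2 ^ k) ≤ ε := by
    have : Tendsto (fun k : ℕ => ‖g‖ * ‖h‖ * (1 / 2 : ℝ) ^ k) atTop (𝓝 (‖g‖ * ‖h‖ * 0)) :=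
      (tendsto_pow_atTop_nhds_zero_of_lt_one (by norm_num) (by norm_num)).const_mul _
    rw [mul_zero] at this
    obtain ⟨k, hk⟩ := (this.eventually (ge_mem_nhds hε)).exists
    exact ⟨k, by simpa [one_div] using hk⟩
  -- the families
  let gX : ℕ → ∀ j, Xt j → ℝ := fun n j x => g (uu (cdX (n, ⟨j, x⟩)))
  let hY : ℕ → ∀ j, Yt j → ℝ := fun m j y => h (uu (cdY (m, ⟨j, y⟩)))
  have hgX : ∀ n j x, |gX n j x| ≤ ‖g‖ := fun n j x => hgb _
  have hhY : ∀ m j y, |hY m j y| ≤ ‖h‖ := fun m j y => hhb _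
  let gb : ℕ → ∀ j, Xt j → ℝ := fun n i x => ulim (fun j => TX^[j-k] (gX n) i x)
  let hb : ℕ → ∀ j, Yt j → ℝ := fun m i y => ulim (fun j => TY^[j-k] (hY m) i y)
  have tg : ∀ n i x, Tendsto (fun j => TX^[j-k] (gX n) i x) (hyperfilter ℕ : Filter ℕ)
      (𝓝 (gb n i x)) := fun n i x =>
    tendsto_ulim (C := ‖g‖) (fun j => TXi_bound _ _ _ _ (hgX n) x)
  have thh : ∀ m i y, Tendsto (fun j => TY^[j-k] (hY m) i y) (hyperfilter ℕ : Filter ℕ)
      (𝓝 (hb m i y)) := fun m i y =>
    tendsto_ulim (C := ‖h‖) (fun j => TYi_bound _ _ _ _ (hhY m) y)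
  have bg : ∀ n i x, |gb n i x| ≤ ‖g‖ := fun n i x =>
    le_of_tendsto (tg n i x).abs (Eventually.of_forall fun j => TXi_bound _ _ _ _ (hgX n) x)
  have bh : ∀ m i y, |hb m i y| ≤ ‖h‖ := fun m i y =>
    le_of_tendsto (thh m i y).abs (Eventually.of_forall fun j => TYi_bound _ _ _ _ (hhY m) y)
  refine ⟨fun n m α => (MM α)^[k] (fun i x y => gb n i x * hb m i y) 0 () (), ?_, ?_⟩
  · refine Ext_MMi k (fun n m α => fun i x y => gb n i x * hb m i y) (fun j x y => ?_) 0 () ()
    exact Ext.mul (Ext.ofN (fun n => bg n j x)) (Ext.ofM (fun m => bh m j y))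
  · intro n m α
    have t2 : Tendsto (fun j => (MM α)^[k] (fun i x y =>
        TX^[j-k] (gX n) i x * TY^[j-k] (hY m) i y) 0 () ()) (hyperfilter ℕ : Filter ℕ)
        (𝓝 ((MM α)^[k] (fun i x y => gb n i x * hb m i y) 0 () ())) :=
      tendsto_MMi α k _ _ (fun j x y => (tg n j x).mul (thh m j y)) 0 () ()
    refine le_of_tendsto ((Pt_tendsto _ n m α).sub t2).abs ?_
    have hev : ∀ᶠ j in (hyperfilter ℕ : Filter ℕ), k ≤ j :=
      Nat.hyperfilter_le_atTop (eventually_ge_atTop k)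
    refine hev.mono (fun j hj => ?_)
    have e1 : aj (prodF g h) n m α j = (MM α)^[k] ((MM α)^[j-k]
        (fun i x y => gX n i x * hY m i y)) 0 () () := by
      unfold aj
      rw [← Function.iterate_add_apply]
      have : k + (j - k) = j := by omega
      rw [this]
      rfl
    rw [e1]
    have e2 := MMi_sub α k ((MM α)^[j-k] (fun i x y => gX n i x * hY m i y))
      (fun i x y => TX^[j-k] (gX n) i x * TY^[j-k] (hY m) i y)
    have e3 := congrFun (congrFun (congrFun e2 0) ()) ()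
    refine (le_of_eq (congrArg _ e3.symm)).trans ?_
    refine MMi_bound α k 0 _ _ (fun x y => ?_) () ()
    refine (MMi_prod α (j-k) (0+k) (gX n) (hY m) (norm_nonneg g) (norm_nonneg h) (hgX n) (hhY m)
      x y).trans ?_
    refine le_trans ?_ hk
    rw [zero_add]
    refine mul_le_mul_of_nonneg_left ?_ (mul_nonneg (norm_nonneg _) (norm_nonneg _))
    have : (0:ℝ) ≤ 1 / 2 ^ (k + (j - k)) := by positivity
    linarith

/-- the submonoid of product functions -/
def Pm : Submonoid C(B × B, ℝ) where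
  carrier := {F | ∃ g h, F = prodF g h}
  mul_mem' := by
    rintro _ _ ⟨g, h, rfl⟩ ⟨g', h', rfl⟩
    refine ⟨g * g', h * h', ?_⟩
    ext p
    simp [prodF]; ring
  one_mem' := ⟨1, 1, by ext p; simp [prodF]⟩

lemma exists_sep {s t : B} (h : s ≠ t) : ∃ g : C(B, ℝ), g s ≠ g t := by
  obtain ⟨g, hg⟩ := exists_continuous_zero_one_of_isClosed (isClosed_singleton (x := s))
    (isClosed_singleton (x := t)) (by simpa using h)
  refine ⟨g, ?_⟩
  rw [hg.1 rfl, hg.2.1 rfl]
  simp

lemma dense_prod (G : C(B × B, ℝ)) :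
    G ∈ closure (Submodule.span ℝ (Pm : Set C(B × B, ℝ)) : Set C(B × B, ℝ)) := by
  have h1 := ContinuousMap.subalgebra_topologicalClosure_eq_top_of_separatesPoints
    (Algebra.adjoin ℝ (Pm : Set C(B × B, ℝ))) ?_
  · have h2 : (Algebra.adjoin ℝ (Pm : Set C(B × B, ℝ)) : Set C(B × B, ℝ))
        = (Submodule.span ℝ (Pm : Set C(B × B, ℝ)) : Set C(B × B, ℝ)) := by
      have := Algebra.adjoin_eq_span ℝ (Pm : Set C(B × B, ℝ))
      rw [Submonoid.closure_eq] at this
      rw [← this]; rfl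
    rw [← h2]
    have h3 : G ∈ (Algebra.adjoin ℝ (Pm : Set C(B × B, ℝ))).topologicalClosure := by
      rw [h1]; trivial
    exact h3
  · rintro ⟨s, t⟩ ⟨s', t'⟩ hne
    by_cases hs : s = s'
    · have ht : t ≠ t' := by rintro rfl; exact hne (by rw [hs])
      obtain ⟨g, hg⟩ := exists_sep ht
      refine ⟨fun p => g p.2, ⟨prodF 1 g, Algebra.subset_adjoin ⟨1, g, rfl⟩, ?_⟩, hg⟩
      ext p; simp [prodF]
    · obtain ⟨g, hg⟩ := exists_sep hs
      refine ⟨fun p => g p.1, ⟨prodF g 1, Algebra.subset_adjoin ⟨g, 1, rfl⟩, ?_⟩, hg⟩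
      ext p; simp [prodF]

lemma Ext_Pt_span (G : C(B × B, ℝ)) (hG : G ∈ Submodule.span ℝ (Pm : Set C(B × B, ℝ))) :
    Ext (Pt G) := by
  induction hG using Submodule.span_induction with
  | mem x hx =>
    obtain ⟨g, h, rfl⟩ := hx
    exact Ext_Pt_prod g h
  | zero =>
    have : Pt (0 : C(B × B, ℝ)) = fun _ _ _ => 0 := by
      funext n m α
      have := Pt_smul 0 0 n m α
      simpa using this
    rw [this]
    exact Ext.const 0
  | add x y _ _ hx hy =>
    have : Pt (x + y) = fun n m α => Pt x n m α + Pt y n m α := by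
      funext n m α; exact Pt_add x y n m α
    rw [this]; exact hx.add hy
  | smul c x _ hx =>
    have : Pt (c • x) = fun n m α => c * Pt x n m α := by
      funext n m α; exact Pt_smul c x n m α
    rw [this]; exact (Ext.const c).mul hx

lemma Ext_Pt (G : C(B × B, ℝ)) : Ext (Pt G) := by
  refine Ext.of_approx (fun ε hε => ?_)
  obtain ⟨G', hG', hd⟩ := Metric.mem_closure_iff.mp (dense_prod G) ε hε
  refine ⟨Pt G', Ext_Pt_span G' hG', fun n m α => ?_⟩
  have h1 : Pt G n m α - Pt G' n m α = Pt (G + (-1 : ℝ) • G') n m α := by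
    rw [Pt_add, Pt_smul]; ring
  rw [h1]
  refine Pt_bound _ (fun x => ?_) n m α
  have h2 : |(G + (-1 : ℝ) • G') x| = dist (G x) (G' x) := by
    rw [Real.dist_eq]
    simp [sub_eq_add_neg]
  rw [h2]
  exact (ContinuousMap.dist_apply_le_dist x).trans hd.le

noncomputable def PP : C(B × B, ℝ) →L[ℝ] C(B × B × D, ℝ) :=
  LinearMap.mkContinuous
    { toFun := fun G => (Ext_Pt G).choose
      map_add' := fun G G' => by
        refine ext_of_dense (fun n m α => ?_)
        rw [ContinuousMap.add_apply, (Ext_Pt (G + G')).choose_spec, (Ext_Pt G).choose_spec,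
          (Ext_Pt G').choose_spec, Pt_add]
      map_smul' := fun c G => by
        refine ext_of_dense (fun n m α => ?_)
        rw [ContinuousMap.smul_apply, (Ext_Pt (c • G)).choose_spec, RingHom.id_apply,
          (Ext_Pt G).choose_spec, Pt_smul, smul_eq_mul] } 1
    (fun G => by
      rw [one_mul, ContinuousMap.norm_le _ (norm_nonneg _)]
      intro x
      rw [Real.norm_eq_abs]
      refine bound_of_dense _ _ (fun n m α => ?_) x
      simp only [LinearMap.coe_mk, AddHom.coe_mk]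
      rw [(Ext_Pt G).choose_spec]
      exact Pt_bound G (norm_bound G) n m α)

lemma PP_apply (G : C(B × B, ℝ)) (n m : ℕ) (α : D) : PP G (uu n, uu m, α) = Pt G n m α :=
  (Ext_Pt G).choose_spec n m α

/-- composition operator -/
noncomputable def compC {X Y : Type} [TopologicalSpace X] [TopologicalSpace Y] [CompactSpace X]
    [CompactSpace Y] (f : C(X, Y)) : C(Y, ℝ) →L[ℝ] C(X, ℝ) :=
  LinearMap.mkContinuous
    { toFun := fun g => g.comp f
      map_add' := fun _ _ => rfl
      map_smul' := fun _ _ => rfl } 1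
    (fun g => by
      rw [one_mul, ContinuousMap.norm_le _ (norm_nonneg _)]
      intro x
      exact g.norm_coe_le_norm (f x))

@[simp] lemma compC_apply {X Y : Type} [TopologicalSpace X] [TopologicalSpace Y] [CompactSpace X]
    [CompactSpace Y] (f : C(X, Y)) (g : C(Y, ℝ)) (x : X) : compC f g x = g (f x) := rfl

/-- `C(βℕ × βℕ × D)` is complemented in `C(βℕ × βℕ)`. -/
theorem PP_comp (F : C(B × B × D, ℝ)) : PP (compC Gam F) = F := by
  refine ext_of_dense (fun n m α => ?_)
  rw [PP_apply]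
  refine ulim_eq ?_
  refine Tendsto.mono_left ?_ Nat.hyperfilter_le_atTop
  rw [Metric.tendsto_atTop]
  intro ε hε
  -- continuity at `α`
  have hc : ContinuousAt (fun θ : D => F (uu n, uu m, θ)) α := by
    have : Continuous (fun θ : D => F (uu n, uu m, θ)) := by fun_prop
    exact this.continuousAt
  have h1 : ∃ N : ℕ, ∀ θ : D, (∀ i < N, θ i = α i) → |F (uu n, uu m, θ) - F (uu n, uu m, α)| ≤ ε/2 := by
    have h2 := Metric.continuousAt_iff'.mp hc (ε/2) (by positivity)
    obtain ⟨U, hU, hUo, hαU⟩ := mem_nhds_iff.mp h2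
    obtain ⟨I, u, hu, hIu⟩ := isOpen_pi_iff.mp hUo α hαU
    refine ⟨I.sup id + 1, fun θ hθ => ?_⟩
    have h3 : θ ∈ U := by
      apply hIu
      intro i hi
      have : i ≤ I.sup id := Finset.le_sup (f := id) hi
      rw [hθ i (by omega)]
      exact (hu i hi).2
    have h4 := hU h3
    rw [Set.mem_ofPred_eq, Real.dist_eq] at h4
    exact h4.le
  obtain ⟨N, hN⟩ := h1
  refine ⟨N, fun j hj => ?_⟩
  rw [Real.dist_eq]
  refine lt_of_le_of_lt ?_ (half_lt_self hε)
  refine MMi_near α j 0 _ _ _ (fun x y hxy => ?_) () () (fun i hi => absurd hi (by omega))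
  have e : fam (compC Gam F) n m (0+j) x y = F (uu n, uu m, th (0+j) x y) := by
    unfold fam
    rw [compC_apply, Gam_apply]
    rfl
  rw [e]
  exact hN _ (fun i hi => hxy i (by omega))

end Pool.Agent.Helper77.BN
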