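import Mathlib

set_option autoImplicit false

namespace Pool.Agent.Helper77.BN

open Finset

/-- the sign of a Boolean -/
def sg (b : Bool) : ℝ := if b then 1 else -1

lemma sg_sq (b : Bool) : sg b * sg b = 1 := by cases b <;> simp [sg]

lemma sg_not (b : Bool) : sg (!b) = - sg b := by cases b <;> simp [sg]

lemma abs_sg (b : Bool) : |sg b| = 1 := by cases b <;> simp [sg]

section
variable {V : Type} [Fintype V] [DecidableEq V]

/-- flipping the sign at `a` -/
def flip (a : V) : (V → Bool) ≃ (V → Bool) where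
  toFun w := Function.update w a (!w a)
  invFun w := Function.update w a (!w a)
  left_inv w := by simp
  right_inv w := by simp

lemma sum_sg (a : V) : ∑ w : V → Bool, sg (w a) = 0 := by
  have h : ∑ w : V → Bool, sg (w a) = ∑ w : V → Bool, - sg (w a) := by
    rw [← Equiv.sum_comp (flip a)]
    refine Finset.sum_congr rfl fun w _ => ?_
    simp [flip, sg_not]
  rw [Finset.sum_neg_distrib] at h
  linarith

lemma sum_sg_mul {a a' : V} (h : a ≠ a') : ∑ w : V → Bool, sg (w a) * sg (w a') = 0 := by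
  have h : ∑ w : V → Bool, sg (w a) * sg (w a') = ∑ w : V → Bool, - (sg (w a) * sg (w a')) := by
    rw [← Equiv.sum_comp (flip a)]
    refine Finset.sum_congr rfl fun w _ => ?_
    simp [flip, sg_not, Function.update_of_ne h.symm]
  rw [Finset.sum_neg_distrib] at h
  linarith

lemma sum_sq (g : V → ℝ) : ∑ w : V → Bool, (∑ a, sg (w a) * g a) ^ 2
    = Fintype.card (V → Bool) * ∑ a, g a ^ 2 := by
  have h1 : ∀ w : V → Bool, (∑ a, sg (w a) * g a) ^ 2
      = ∑ a, ∑ a', (sg (w a) * sg (w a')) * (g a * g a') := by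
    intro w
    rw [sq, Finset.sum_mul_sum]
    refine Finset.sum_congr rfl fun a _ => Finset.sum_congr rfl fun a' _ => ?_
    ring
  simp_rw [h1]
  rw [Finset.sum_comm]
  rw [Finset.mul_sum]
  refine Finset.sum_congr rfl fun a _ => ?_
  rw [Finset.sum_comm]
  simp_rw [← Finset.sum_mul]
  rw [Finset.sum_eq_single a]
  · simp only [sg_sq, Finset.sum_const, Finset.card_univ]
    rw [nsmul_eq_mul]; ring
  · intro a' _ ha'
    rw [sum_sg_mul (Ne.symm ha')]; ring
  · intro h; exact absurd (Finset.mem_univ a) h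

/-- The Rademacher bound. -/
lemma rad_bound (g : V → ℝ) {G : ℝ} (hG : 0 ≤ G) (hg : ∀ a, |g a| ≤ G) :
    ∑ w : V → Bool, |∑ a, sg (w a) * g a|
      ≤ Fintype.card (V → Bool) * (G * Real.sqrt (Fintype.card V)) := by
  have h0 : (0:ℝ) ≤ Fintype.card (V → Bool) := Nat.cast_nonneg _
  have h1 : (∑ w : V → Bool, |∑ a, sg (w a) * g a|) ^ 2
      ≤ Fintype.card (V → Bool) * ∑ w : V → Bool, |∑ a, sg (w a) * g a| ^ 2 := by
    have := sq_sum_le_card_mul_sum_sq (s := (Finset.univ : Finset (V → Bool)))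
      (f := fun w => |∑ a, sg (w a) * g a|)
    simpa [Finset.card_univ] using this
  have h2 : ∑ w : V → Bool, |∑ a, sg (w a) * g a| ^ 2
      = Fintype.card (V → Bool) * ∑ a, g a ^ 2 := by
    rw [← sum_sq g]
    refine Finset.sum_congr rfl fun w _ => ?_
    rw [sq_abs]
  have h3 : ∑ a, g a ^ 2 ≤ Fintype.card V * G ^ 2 := by
    have : ∑ a, g a ^ 2 ≤ ∑ _a : V, G ^ 2 := by
      refine Finset.sum_le_sum fun a _ => ?_
      rw [← sq_abs]
      exact pow_le_pow_left₀ (abs_nonneg _) (hg a) 2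
    simpa [Finset.card_univ] using this
  have h4 : (∑ w : V → Bool, |∑ a, sg (w a) * g a|) ^ 2
      ≤ (Fintype.card (V → Bool) * (G * Real.sqrt (Fintype.card V))) ^ 2 := by
    have h5 : (Fintype.card (V → Bool) * (G * Real.sqrt (Fintype.card V))) ^ 2
      = Fintype.card (V → Bool) * (Fintype.card (V → Bool) * (Fintype.card V * G ^ 2)) := by
      rw [mul_pow, mul_pow, Real.sq_sqrt (Nat.cast_nonneg _)]; ring
    rw [h5]
    refine h1.trans ?_
    rw [h2]
    exact mul_le_mul_of_nonneg_left (mul_le_mul_of_nonneg_left h3 h0) h0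
  have h6 : 0 ≤ Fintype.card (V → Bool) * (G * Real.sqrt (Fintype.card V)) := by positivity
  exact le_of_sq_le_sq h4 h6

/-- The averaging operator against the density `1 + sg b * sg (w a)`. -/
noncomputable def Mop (b : Bool) (Φ : V → (V → Bool) → ℝ) : ℝ :=
  (∑ a, ∑ w, (1 + sg b * sg (w a)) * Φ a w) / (Fintype.card V * Fintype.card (V → Bool))

/-- plain average -/
noncomputable def avg {T : Type} [Fintype T] (g : T → ℝ) : ℝ := (∑ a, g a) / Fintype.card T

lemma wt_nonneg (b c : Bool) : 0 ≤ 1 + sg b * sg c := by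
  cases b <;> cases c <;> norm_num [sg]

lemma sum_wt (b : Bool) : ∑ a : V, ∑ w : V → Bool, (1 + sg b * sg (w a))
    = Fintype.card V * Fintype.card (V → Bool) := by
  have : ∀ a : V, ∑ w : V → Bool, (1 + sg b * sg (w a)) = Fintype.card (V → Bool) := by
    intro a
    rw [Finset.sum_add_distrib, ← Finset.mul_sum, sum_sg]
    simp [Finset.card_univ]
  simp_rw [this]
  simp [Finset.card_univ]

lemma Mop_sub (b : Bool) (Φ Ψ : V → (V → Bool) → ℝ) :
    Mop b (fun a w => Φ a w - Ψ a w) = Mop b Φ - Mop b Ψ := by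
  unfold Mop
  rw [← sub_div, ← Finset.sum_sub_distrib]
  congr 1
  refine Finset.sum_congr rfl fun a _ => ?_
  rw [← Finset.sum_sub_distrib]
  refine Finset.sum_congr rfl fun w _ => ?_
  ring

lemma Mop_add (b : Bool) (Φ Ψ : V → (V → Bool) → ℝ) :
    Mop b (fun a w => Φ a w + Ψ a w) = Mop b Φ + Mop b Ψ := by
  unfold Mop
  rw [← add_div, ← Finset.sum_add_distrib]
  congr 1
  refine Finset.sum_congr rfl fun a _ => ?_
  rw [← Finset.sum_add_distrib]
  refine Finset.sum_congr rfl fun w _ => ?_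
  ring

lemma Mop_smul (b : Bool) (c : ℝ) (Φ : V → (V → Bool) → ℝ) :
    Mop b (fun a w => c * Φ a w) = c * Mop b Φ := by
  unfold Mop
  rw [mul_div_assoc', Finset.mul_sum]
  congr 1
  refine Finset.sum_congr rfl fun a _ => ?_
  rw [Finset.mul_sum]
  refine Finset.sum_congr rfl fun w _ => ?_
  ring

/-- `Mop b` is an average over the pairs with `w a = b`. -/
lemma Mop_near [Nonempty V] (b : Bool) (Φ : V → (V → Bool) → ℝ) (c ε : ℝ)
    (h : ∀ a w, w a = b → |Φ a w - c| ≤ ε) : |Mop b Φ - c| ≤ ε := by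
  have hV : (0:ℝ) < Fintype.card V := by exact_mod_cast Fintype.card_pos
  have hW : (0:ℝ) < Fintype.card (V → Bool) := by exact_mod_cast Fintype.card_pos
  have hVW := mul_pos hV hW
  have h1 : Mop b Φ - c = (∑ a, ∑ w, (1 + sg b * sg (w a)) * (Φ a w - c))
      / (Fintype.card V * Fintype.card (V → Bool)) := by
    unfold Mop
    rw [eq_div_iff hVW.ne', sub_mul, div_mul_cancel₀ _ hVW.ne', ← sum_wt b, Finset.mul_sum,
      ← Finset.sum_sub_distrib]
    refine Finset.sum_congr rfl fun a _ => ?_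
    rw [Finset.mul_sum, ← Finset.sum_sub_distrib]
    refine Finset.sum_congr rfl fun w _ => ?_
    ring
  rw [h1, abs_div, abs_of_pos hVW, div_le_iff₀ hVW, ← sum_wt b, Finset.mul_sum]
  refine (Finset.abs_sum_le_sum_abs _ _).trans (Finset.sum_le_sum fun a _ => ?_)
  rw [Finset.mul_sum]
  refine (Finset.abs_sum_le_sum_abs _ _).trans (Finset.sum_le_sum fun w _ => ?_)
  rw [abs_mul, abs_of_nonneg (wt_nonneg b (w a)), mul_comm]
  by_cases hb : w a = b
  · exact mul_le_mul_of_nonneg_right (h a w hb) (wt_nonneg _ _)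
  · have : 1 + sg b * sg (w a) = 0 := by
      cases hwa : w a <;> cases b <;> simp_all [sg]
    rw [this]; simp

lemma Mop_bound [Nonempty V] (b : Bool) (Φ : V → (V → Bool) → ℝ) (C : ℝ)
    (h : ∀ a w, |Φ a w| ≤ C) : |Mop b Φ| ≤ C := by
  have := Mop_near b Φ 0 C (fun a w _ => by simpa using h a w)
  simpa using this

lemma avg_bound {T : Type} [Fintype T] [Nonempty T] (g : T → ℝ) (C : ℝ)
    (h : ∀ a, |g a| ≤ C) : |avg g| ≤ C := by
  have hT : (0:ℝ) < Fintype.card T := by exact_mod_cast Fintype.card_pos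
  unfold avg
  rw [abs_div, abs_of_pos hT, div_le_iff₀ hT]
  refine (Finset.abs_sum_le_sum_abs _ _).trans ?_
  refine (Finset.sum_le_sum fun a _ => h a).trans ?_
  simp [Finset.card_univ, mul_comm]

/-- On products, `Mop b` is close to the product of the averages. -/
lemma Mop_prod [Nonempty V] (b : Bool) (g : V → ℝ) (h : (V → Bool) → ℝ) {G H : ℝ}
    (hG : 0 ≤ G) (hH : 0 ≤ H)
    (hg : ∀ a, |g a| ≤ G) (hh : ∀ w, |h w| ≤ H) :
    |Mop b (fun a w => g a * h w) - avg g * avg h| ≤ G * H / Real.sqrt (Fintype.card V) := by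
  have hV : (0:ℝ) < Fintype.card V := by exact_mod_cast Fintype.card_pos
  have hW : (0:ℝ) < Fintype.card (V → Bool) := by exact_mod_cast Fintype.card_pos
  have hVW := mul_pos hV hW
  have hs : 0 < Real.sqrt (Fintype.card V) := Real.sqrt_pos.mpr hV
  have h1 : Mop b (fun a w => g a * h w) - avg g * avg h
      = (∑ w, (sg b * h w) * ∑ a, sg (w a) * g a) / (Fintype.card V * Fintype.card (V → Bool)) := by
    unfold Mop avg
    rw [div_mul_div_comm, ← sub_div, Finset.sum_mul_sum, ← Finset.sum_sub_distrib]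
    congr 1
    simp_rw [Finset.mul_sum]
    rw [Finset.sum_comm (s := (Finset.univ : Finset (V → Bool)))]
    refine Finset.sum_congr rfl fun a _ => ?_
    rw [← Finset.sum_sub_distrib]
    refine Finset.sum_congr rfl fun w _ => ?_
    ring
  rw [h1, abs_div, abs_of_pos hVW, div_le_iff₀ hVW]
  have h2 : |∑ w, (sg b * h w) * ∑ a, sg (w a) * g a| ≤ H * ∑ w : V → Bool, |∑ a, sg (w a) * g a| := by
    rw [Finset.mul_sum]
    refine (Finset.abs_sum_le_sum_abs _ _).trans (Finset.sum_le_sum fun w _ => ?_)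
    rw [abs_mul, abs_mul, abs_sg, one_mul]
    exact mul_le_mul_of_nonneg_right (hh w) (abs_nonneg _)
  refine h2.trans ?_
  refine (mul_le_mul_of_nonneg_left (rad_bound g hG hg) hH).trans (le_of_eq ?_)
  have h3 : (Fintype.card V : ℝ) = Real.sqrt (Fintype.card V) * Real.sqrt (Fintype.card V) :=
    (Real.mul_self_sqrt hV.le).symm
  rw [div_mul_eq_mul_div, eq_div_iff hs.ne']
  linear_combination (-(G * H * (Fintype.card (V → Bool) : ℝ))) * h3

end

end Pool.Agent.Helper77.BN
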