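import Pool.Agent.Helper77.BN.Proj
import Pool.Agent.Helper77.BN.Dec

set_option autoImplicit false

namespace Pool.Agent.Helper77.BN

open Filter Topology OnePoint

/-- the embedding `ω+1 → D` -/
noncomputable def sE : C(OnePoint ℕ, D) :=
  continuousMapMkNat (fun n => (fun i => decide (i < n))) (fun _ => true) (by
    rw [tendsto_pi_nhds]
    intro i
    refine tendsto_const_nhds.congr' ?_
    filter_upwards [eventually_gt_atTop i] with n hn
    simp [hn])

lemma sE_coe (n i : ℕ) : sE (n : OnePoint ℕ) i = decide (i < n) := rfl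
lemma sE_infty (i : ℕ) : sE ∞ i = true := rfl

lemma sE_inj : Function.Injective sE := by
  have key : ∀ n m : ℕ, sE (n : OnePoint ℕ) = sE (m : OnePoint ℕ) → m ≤ n := by
    intro n m h
    by_contra hlt
    have := congrFun h n
    rw [sE_coe, sE_coe] at this
    simp at this
    omega
  intro a b h
  induction a using OnePoint.rec with
  | infty =>
    induction b using OnePoint.rec with
    | infty => rfl
    | coe m =>
      have := congrFun h m
      rw [sE_infty, sE_coe] at this
      simp at this
  | coe n =>
    induction b using OnePoint.rec with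
    | infty =>
      have := congrFun h n
      rw [sE_infty, sE_coe] at this
      simp at this
    | coe m => rw [le_antisymm (key m n h.symm) (key n m h)]

lemma sE_emb : IsClosedEmbedding sE := sE.continuous.isClosedEmbedding sE_inj

/-- running conjunction -/
def mm (y : D) : ℕ → Bool
  | 0 => y 0
  | i+1 => mm y i && y (i+1)

lemma continuous_mm : Continuous mm := by
  refine continuous_pi fun i => ?_
  induction i with
  | zero => exact continuous_apply 0
  | succ i ih =>
    have h1 : Continuous (fun p : Bool × Bool => p.1 && p.2) := continuous_of_discreteTopology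
    exact h1.comp (ih.prodMk (continuous_apply (i+1)))

lemma mm_anti (y : D) {i j : ℕ} (h : i ≤ j) (hj : mm y j = true) : mm y i = true := by
  induction j, h using Nat.le_induction with
  | base => exact hj
  | succ j _ ih => exact ih (by simp only [mm, Bool.and_eq_true] at hj; exact hj.1)

lemma exists_rE (y : D) : ∃ k : OnePoint ℕ, sE k = mm y := by
  classical
  by_cases h : ∃ i, mm y i = false
  · refine ⟨(Nat.find h : ℕ), ?_⟩
    funext i
    rw [sE_coe]
    by_cases hi : i < Nat.find h
    · have := Nat.find_min h hi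
      simp only [Bool.not_eq_false] at this
      simp [hi, this]
    · have h1 := Nat.find_spec h
      rw [decide_eq_false hi]
      by_contra hne
      have h2 : mm y i = true := by
        cases hm : mm y i with
        | false => exact absurd hm.symm hne
        | true => rfl
      have := mm_anti y (not_lt.mp hi) h2
      rw [h1] at this
      exact absurd this (by simp)
  · refine ⟨∞, ?_⟩
    funext i
    rw [sE_infty]
    push Not at h
    have := h i
    simpa using this.symm

noncomputable def rE : C(D, OnePoint ℕ) where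
  toFun y := (exists_rE y).choose
  continuous_toFun := by
    rw [sE_emb.isInducing.continuous_iff]
    have : (sE ∘ fun y => (exists_rE y).choose) = mm := by
      funext y; exact (exists_rE y).choose_spec
    rw [this]
    exact continuous_mm

lemma sE_rE (y : D) : sE (rE y) = mm y := (exists_rE y).choose_spec

lemma sE_anti (k : OnePoint ℕ) (i : ℕ) (h : sE k (i+1) = true) : sE k i = true := by
  induction k using OnePoint.rec with
  | infty => rfl
  | coe n =>
    rw [sE_coe] at h ⊢
    simp at h ⊢
    omega

lemma mm_sE (k : OnePoint ℕ) : mm (sE k) = sE k := by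
  funext i
  induction i with
  | zero => rfl
  | succ i ih =>
    simp only [mm]
    rw [ih]
    cases h : sE k (i+1) with
    | false => simp
    | true => rw [sE_anti k i h]; rfl

lemma rE_sE (k : OnePoint ℕ) : rE (sE k) = k := by
  apply sE_inj
  rw [sE_rE, mm_sE]

/-- retracts give complemented function spaces -/
lemma Compl.of_retract {X Y : Type} [TopologicalSpace X] [TopologicalSpace Y] [CompactSpace X]
    [CompactSpace Y] (e : C(X, Y)) (q : C(Y, X)) (h : ∀ x, q (e x) = x) :
    Compl C(X, ℝ) C(Y, ℝ) :=
  ⟨compC q, compC e, fun u => by ext x; simp [h]⟩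

lemma norm_uncurry_le {X Y : Type} [TopologicalSpace X] [TopologicalSpace Y] [CompactSpace X]
    [CompactSpace Y] [T2Space Y] (f : C(X, C(Y, ℝ))) : ‖f.uncurry‖ ≤ ‖f‖ := by
  refine (ContinuousMap.norm_le f.uncurry (norm_nonneg f)).mpr ?_
  rintro ⟨x, y⟩
  exact ((f x).norm_coe_le_norm y).trans (f.norm_coe_le_norm x)

lemma norm_curry_le {X Y : Type} [TopologicalSpace X] [TopologicalSpace Y] [CompactSpace X]
    [CompactSpace Y] [T2Space Y] (g : C(X × Y, ℝ)) : ‖g.curry‖ ≤ ‖g‖ := by
  refine (ContinuousMap.norm_le g.curry (norm_nonneg g)).mpr ?_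
  intro x
  refine (ContinuousMap.norm_le (g.curry x) (norm_nonneg g)).mpr ?_
  intro y
  exact g.norm_coe_le_norm (x, y)

lemma Compl.curry {X Y : Type} [TopologicalSpace X] [TopologicalSpace Y] [CompactSpace X]
    [CompactSpace Y] [T2Space Y] : Compl C(X, C(Y, ℝ)) C(X × Y, ℝ) := by
  let i : C(X, C(Y, ℝ)) →ₗ[ℝ] C(X × Y, ℝ) :=
    { toFun := fun f => f.uncurry
      map_add' := fun _ _ => by ext p; rfl
      map_smul' := fun _ _ => by ext p; rfl }
  let p : C(X × Y, ℝ) →ₗ[ℝ] C(X, C(Y, ℝ)) :=
    { toFun := fun g => g.curry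
      map_add' := fun _ _ => by ext x y; rfl
      map_smul' := fun _ _ => by ext x y; rfl }
  refine ⟨i.mkContinuous 1 (fun f => ?_), p.mkContinuous 1 (fun g => ?_), fun f => ?_⟩
  · rw [one_mul]; exact norm_uncurry_le f
  · rw [one_mul]; exact norm_curry_le g
  · ext x y; rfl

/-- interleaving -/
def inter (a b : D) : D := fun i => if i % 2 = 0 then a (i / 2) else b (i / 2)

lemma continuous_inter : Continuous (fun p : D × D => inter p.1 p.2) := by
  refine continuous_pi fun i => ?_
  unfold inter
  split_ifs <;> fun_prop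

/-- `(ω+1) × X × D` is a retract of `X × D`. -/
noncomputable def eE : C(OnePoint ℕ × (B × B × D), B × B × D) where
  toFun p := (p.2.1, p.2.2.1, inter (sE p.1) p.2.2.2)
  continuous_toFun := by
    have h1 : Continuous (fun p : OnePoint ℕ × (B × B × D) => inter (sE p.1) p.2.2.2) :=
      continuous_inter.comp ((sE.continuous.comp continuous_fst).prodMk (by fun_prop))
    fun_prop

noncomputable def qE : C(B × B × D, OnePoint ℕ × (B × B × D)) where
  toFun p := (rE (fun i => p.2.2 (2 * i)), (p.1, p.2.1, fun i => p.2.2 (2 * i + 1)))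
  continuous_toFun := by
    have h1 : Continuous (fun p : B × B × D => rE (fun i => p.2.2 (2 * i))) :=
      rE.continuous.comp (by fun_prop)
    fun_prop

lemma qE_eE (p : OnePoint ℕ × (B × B × D)) : qE (eE p) = p := by
  obtain ⟨k, s, t, x⟩ := p
  simp only [qE, eE, ContinuousMap.coe_mk]
  have h1 : (fun i => inter (sE k) x (2 * i)) = sE k := by
    funext i; simp [inter]
  have h2 : (fun i => inter (sE k) x (2 * i + 1)) = x := by
    funext i
    have e1 : (2 * i + 1) % 2 = 1 := by omega
    have e2 : (2 * i + 1) / 2 = i := by omega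
    simp [inter, e1, e2]
  rw [h1, h2, rE_sE]

abbrev CV : Type := C(B × B × D, ℝ)
abbrev CU : Type := C(B × B × OnePoint ℕ, ℝ)

lemma compl_W : Compl C(OnePoint ℕ, CV) CV :=
  Compl.curry.trans (Compl.of_retract eE qE qE_eE)

lemma compl_UV : Compl CU CV :=
  Compl.of_retract (X := B × B × OnePoint ℕ) (Y := B × B × D)
    ⟨fun p => (p.1, p.2.1, sE p.2.2), by fun_prop⟩ ⟨fun p => (p.1, p.2.1, rE p.2.2), by fun_prop⟩
    (fun p => by simp [rE_sE])

lemma compl_VU : Compl CV CU := by
  have h1 : Compl CV C(B × B, ℝ) := ⟨compC Gam, PP, PP_comp⟩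
  have h2 : Compl C(B × B, ℝ) CU :=
    Compl.of_retract (X := B × B) (Y := B × B × OnePoint ℕ)
      ⟨fun p => (p.1, p.2, ∞), by fun_prop⟩ ⟨fun p => (p.1, p.2.1), by fun_prop⟩ (fun _ => rfl)
  exact h1.trans h2

theorem iso_UV : Nonempty (CU ≃L[ℝ] CV) := decomposition compl_UV compl_VU compl_W

end Pool.Agent.Helper77.BN
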